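import Pool.Agent.W95.BK.Defs

/-!
# Statements of the parts of project BK
-/

open Polynomial Topology Filter MeasureTheory
open scoped ENNReal

namespace Pool.Agent.W95.BK

universe u

section defs
variable {K : Type u} [NontriviallyNormedField K]

/-- `λ_x(a) = |X - a|_x` -/
noncomputable def lam (x : BA K) (a : K) : ℝ := x (X - C a)

/-- The Gauss norm on the disc of centre `a` and radius `r`
(`gauss a r hr h = gn a r h` by `rfl`). -/
noncomputable def gn [IsUltrametricDist K] (a : K) (r : ℝ) (h : K[X]) : ℝ :=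
  (taylor a h).gaussNorm (NormedField.toAbsoluteValue K) r

/-- `v_i(a,r) = max (|p_i|, r |q_i|) r^i` where `P - aQ = ∑ p_i (X-a)^i`, `Q = ∑ q_i (X-a)^i`. -/
noncomputable def vI (f : RMap K) (a : K) (r : ℝ) (i : ℕ) : ℝ :=
  max ‖(taylor a (f.P - C a * f.Q)).coeff i‖ (r * ‖(taylor a f.Q).coeff i‖) * r ^ i

noncomputable def Mx (f : RMap K) (a : K) (r : ℝ) : ℝ :=
  (Finset.range (f.d + 1)).sup' ⟨0, by simp⟩ (vI f a r)

/-- smallest index attaining the maximum: the number of preimages of `ζ_{a,r}` in the open disc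
`|z - a| < r`. -/
noncomputable def Nw (f : RMap K) (a : K) (r : ℝ) : ℕ := sInf {i | i ≤ f.d ∧ vI f a r i = Mx f a r}

/-- largest index attaining the maximum: the number of preimages of `ζ_{a,r}` in the closed disc
`|z - a| ≤ r`. -/
noncomputable def Iw (f : RMap K) (a : K) (r : ℝ) : ℕ := sSup {i | i ≤ f.d ∧ vI f a r i = Mx f a r}

open Classical in
/-- number of roots of `h` in `S` with multiplicities -/
noncomputable def nIn (h : K[X]) (S : Set K) : ℕ := (h.roots.filter (fun w => w ∈ S)).card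

/-- The open Berkovich disc `{λ(a) < r}` of the affine line, as a subset of the projective line. -/
def ball (a : K) (r : ℝ) : Set (P1B K) := {x | ∃ y : BA K, x = (y : P1B K) ∧ lam y a < r}

/-- `x` is of type II -/
def TII [IsUltrametricDist K] (x : BA K) : Prop :=
  ∃ (a : K) (r : ℝ) (hr : 0 < r), (∃ c : K, ‖c‖ = r) ∧ x = gauss a r hr

/-- The test function `log max(λ_x(a), t) - log max(λ_x(a), s)`, value `0` at `∞`. -/
noncomputable def ker (a : K) (s t : ℝ) : P1B K → ℝ := fun x =>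
  x.elim 0 (fun y => Real.log (max (lam y a) t) - Real.log (max (lam y a) s))

/-- The Green function of `R`. -/
noncomputable def gr [IsAlgClosed K] (R : RMap K) (x : BA K) : ℝ :=
  limUnder atTop (fun n : ℕ => Real.log (max (x (R.iter n).P) (x (R.iter n).Q)) / (R.d : ℝ) ^ n)

/-- spherical diameter -/
noncomputable def dl (x : BA K) : ℝ := (⨅ a : K, lam x a) / max 1 (x X) ^ 2

/-- A type II repelling fixed point of `f`. -/
def XF [IsUltrametricDist K] (f : RMap K) (x : BA K) : Prop :=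
  TII x ∧ f.act (x : P1B K) = x ∧ 2 ≤ localDeg f (x : P1B K)

end defs

/-! ### A. topology -/

/-- continuity of evaluation -/
def S_EV : Prop := ∀ (K : Type u) [NontriviallyNormedField K] (h : K[X]),
  Continuous (fun x : BA K => x h)

/-- values are determined by `λ` -/
def S_VAL : Prop := ∀ (K : Type u) [NontriviallyNormedField K] [IsAlgClosed K] (x : BA K)
  (h : K[X]), x h = ‖h.leadingCoeff‖ * (h.roots.map (fun w => lam x w)).prod

/-- isosceles triangles -/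
def S_ISO : Prop := ∀ (K : Type u) [NontriviallyNormedField K] (x : BA K) (a b : K),
  lam x a ≤ max (lam x b) ‖a - b‖ ∧ ‖a - b‖ ≤ max (lam x a) (lam x b) ∧
  (lam x b < ‖a - b‖ → lam x a = ‖a - b‖) ∧ (‖a - b‖ < lam x b → lam x a = lam x b)

/-- `λ` at a Gauss point and at a classical point -/
def S_GLAM : Prop := ∀ (K : Type u) [NontriviallyNormedField K] [IsUltrametricDist K]
  (a b : K), lam (cl a) b = ‖a - b‖ ∧ ∀ (r : ℝ) (hr : 0 < r), lam (gauss a r hr) b = max ‖a - b‖ r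

/-- the affine line is Hausdorff and locally compact, the projective line is Hausdorff -/
def S_T2 : Prop := ∀ (K : Type u) [NontriviallyNormedField K] [IsAlgClosed K],
  T2Space (BA K) ∧ LocallyCompactSpace (BA K) ∧ T2Space (P1B K) ∧
  ∀ r : ℝ, IsCompact {x : BA K | lam x 0 ≤ r}

/-- basic neighbourhoods -/
def S_NB : Prop := ∀ (K : Type u) [NontriviallyNormedField K] [IsAlgClosed K],
  (∀ (x : BA K) (U : Set (P1B K)), U ∈ 𝓝 (x : P1B K) → ∃ A B : Finset (K × ℝ),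
    (∀ p ∈ A, lam x p.1 < p.2) ∧ (∀ p ∈ B, 0 ≤ p.2 ∧ p.2 < lam x p.1) ∧
    ∀ y : BA K, (∀ p ∈ A, lam y p.1 < p.2) → (∀ p ∈ B, p.2 < lam y p.1) → (y : P1B K) ∈ U) ∧
  (∀ U : Set (P1B K), U ∈ 𝓝 (OnePoint.infty : P1B K) →
    OnePoint.infty ∈ U ∧ ∃ r : ℝ, 0 < r ∧ ∀ y : BA K, r < lam y 0 → (y : P1B K) ∈ U) ∧
  (∀ (a : K) (r : ℝ), IsOpen (ball a r)) ∧
  (∀ (a : K) (r : ℝ), IsOpen ({x : P1B K | ∀ y : BA K, x = (y : P1B K) → r < lam y a}))

/-- classical points of `K` are dense -/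
def S_DENSE : Prop := ∀ (K : Type u) [NontriviallyNormedField K] [IsUltrametricDist K]
  [IsAlgClosed K], ∀ (x : P1B K), (toward x).NeBot

/-- a point of `ℍ_K` avoids any given classical point -/
def S_AVOID : Prop := ∀ (K : Type u) [NontriviallyNormedField K] [IsUltrametricDist K]
  [IsAlgClosed K] (x : BA K), HK x → (∀ h : K[X], h ≠ 0 → x h ≠ 0) ∧
  ∀ (c : K), ∀ᶠ b in toward (x : P1B K), b ≠ c

/-- continuity of the test functions -/
def S_KERC : Prop := ∀ (K : Type u) [NontriviallyNormedField K] [IsAlgClosed K] (a : K)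
  (s t : ℝ), 0 < s → 0 < t → Continuous (ker a s t)

/-- continuity of the action -/
def S_ACTC : Prop := ∀ (K : Type u) [NontriviallyNormedField K] [IsUltrametricDist K]
  [IsAlgClosed K] (f : RMap K), Continuous f.act

/-- basic properties of the action -/
def S_ACT : Prop := ∀ (K : Type u) [NontriviallyNormedField K] [IsUltrametricDist K]
  [IsAlgClosed K] (f : RMap K),
  (∀ x : BA K, HK x → ∃ y : BA K, HK y ∧ f.act (x : P1B K) = (y : P1B K) ∧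
    (∀ h : K[X], y h = x (hom h.natDegree h f.P f.Q) / x f.Q ^ h.natDegree) ∧
    (∀ b : K, lam y b = x (f.P - C b * f.Q) / x f.Q)) ∧
  (∀ w : K, f.Q.eval w ≠ 0 → f.act ((cl w : BA K) : P1B K) =
    ((cl (f.P.eval w / f.Q.eval w) : BA K) : P1B K)) ∧
  (∀ w : K, f.Q.eval w = 0 → f.act ((cl w : BA K) : P1B K) = OnePoint.infty) ∧
  (∀ (b : K) (w : P1B K), w ∈ fib f b → f.act w = ((cl b : BA K) : P1B K)) ∧
  (∀ b : K, (fib f b).card = f.d)

/-- functoriality -/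
def S_FUNC : Prop := ∀ (K : Type u) [NontriviallyNormedField K] [IsUltrametricDist K]
  [IsAlgClosed K], (∀ (f g : RMap K) (x : P1B K), (f.comp g).act x = f.act (g.act x)) ∧
  (∀ x : P1B K, (RMap.id K).act x = x)

/-- algebra of iterates -/
def S_ITER : Prop := ∀ (K : Type u) [Field K] [IsAlgClosed K] (R : RMap K),
  (∀ n, (R.iter n).d = R.d ^ n) ∧ (∀ n m, R.iter (n + m) = (R.iter n).comp (R.iter m)) ∧
  (∀ n, R.comp (R.iter n) = (R.iter n).comp R) ∧ R.iter 1 = R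

/-- fibres of compositions -/
def S_FIBC : Prop := ∀ (K : Type u) [NontriviallyNormedField K] [IsUltrametricDist K]
  [IsAlgClosed K] (f g : RMap K) (b : K), (f.P - C b * f.Q).natDegree = f.d →
  fib (f.comp g) b = (f.P - C b * f.Q).roots.bind (fun z => fib g z)

/-! ### B. Newton polygons -/

/-- Newton polygon: minimal and maximal index count the roots in open and closed discs -/
def S_NPOL : Prop := ∀ (K : Type u) [NontriviallyNormedField K] [IsUltrametricDist K]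
  [IsAlgClosed K] (h : K[X]) (a : K) (r : ℝ), h ≠ 0 → 0 < r →
  0 < gn a r h ∧
  (∀ i, ‖(taylor a h).coeff i‖ * r ^ i ≤ gn a r h) ∧
  ‖(taylor a h).coeff (nIn h {w | ‖w - a‖ < r})‖ * r ^ (nIn h {w | ‖w - a‖ < r}) = gn a r h ∧
  (∀ i < nIn h {w | ‖w - a‖ < r}, ‖(taylor a h).coeff i‖ * r ^ i < gn a r h) ∧
  ‖(taylor a h).coeff (nIn h {w | ‖w - a‖ ≤ r})‖ * r ^ (nIn h {w | ‖w - a‖ ≤ r}) = gn a r h ∧
  (∀ i, nIn h {w | ‖w - a‖ ≤ r} < i → ‖(taylor a h).coeff i‖ * r ^ i < gn a r h)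

/-- generic points of a disc -/
def S_GEN : Prop := ∀ (K : Type u) [NontriviallyNormedField K] [IsUltrametricDist K]
  [IsAlgClosed K] (a c : K) (T : Finset K[X]) (B : Finset K), c ≠ 0 → (∀ h ∈ T, h ≠ 0) →
  ∃ w : K, ‖w - a‖ ≤ ‖c‖ ∧ (∀ β ∈ B, ‖c‖ ≤ ‖w - β‖) ∧ ∀ h ∈ T, ‖h.eval w‖ = gn a ‖c‖ h

/-- density of the value group -/
def S_DVG : Prop := ∀ (K : Type u) [NontriviallyNormedField K] [IsUltrametricDist K]
  [IsAlgClosed K] (s t : ℝ), 0 < s → s < t → ∃ c : K, s < ‖c‖ ∧ ‖c‖ < t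

/-- generic classical points are near a type II point -/
def S_NBGEN : Prop := ∀ (K : Type u) [NontriviallyNormedField K] [IsUltrametricDist K]
  [IsAlgClosed K] (a c : K) (r : ℝ) (hr : 0 < r), ‖c‖ = r →
  ∀ V : Set (P1B K), V ∈ 𝓝 ((gauss a r hr : BA K) : P1B K) →
  ∃ B : Finset K, ∀ b : K, ‖b - a‖ ≤ r → (∀ β ∈ B, r ≤ ‖b - β‖) → ((cl b : BA K) : P1B K) ∈ V

/-- `Nw`, `Iw` are root counts for generic `b` -/
def S_NWROOT : Prop := ∀ (K : Type u) [NontriviallyNormedField K] [IsUltrametricDist K]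
  [IsAlgClosed K] (f : RMap K) (a c : K) (r : ℝ), 0 < r → ‖c‖ = r →
  ∃ (B : Finset K) (s₁ s₂ : ℝ), 0 < s₁ ∧ s₁ < r ∧ r < s₂ ∧ ∀ b : K, ‖b - a‖ ≤ r →
    (∀ β ∈ B, r ≤ ‖b - β‖) → f.P - C b * f.Q ≠ 0 ∧
    nIn (f.P - C b * f.Q) {w | ‖w - a‖ < r} = Nw f a r ∧
    nIn (f.P - C b * f.Q) {w | ‖w - a‖ ≤ s₁} = Nw f a r ∧
    nIn (f.P - C b * f.Q) {w | ‖w - a‖ ≤ r} = Iw f a r ∧
    nIn (f.P - C b * f.Q) {w | ‖w - a‖ < s₂} = Iw f a r

/-- elementary inequalities for `Nw`, `Iw`, `Mx` -/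
def S_NWI : Prop := ∀ (K : Type u) [NontriviallyNormedField K] [IsUltrametricDist K]
  [IsAlgClosed K] (f : RMap K) (a : K) (r : ℝ), 0 < r →
  (0 < Mx f a r ∧ vI f a r (Nw f a r) = Mx f a r ∧ vI f a r (Iw f a r) = Mx f a r ∧
    Nw f a r ≤ Iw f a r ∧ Iw f a r ≤ f.d ∧ (∀ i, vI f a r i ≤ Mx f a r) ∧
    (∀ i < Nw f a r, vI f a r i < Mx f a r) ∧ (∀ i, Iw f a r < i → vI f a r i < Mx f a r)) ∧
  Mx f a r = max (gn a r (f.P - C a * f.Q)) (r * gn a r f.Q) ∧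
  (∀ r', r < r' → (Nw f a r : ℝ) * Real.log (r' / r) ≤ Real.log (Mx f a r') - Real.log (Mx f a r)
    ∧ Real.log (Mx f a r') - Real.log (Mx f a r) ≤ (Nw f a r' + 1) * Real.log (r' / r)) ∧
  (∀ r', r ≤ r' → Nw f a r ≤ Nw f a r') ∧
  (∃ s, 0 < s ∧ s < r ∧ ∀ t, s < t → t < r → Nw f a t = Nw f a r) ∧
  (∀ r', r < r' → Iw f a r ≤ Nw f a r' + 1)

/-- independence of the centre -/
def S_CENTER : Prop := ∀ (K : Type u) [NontriviallyNormedField K] [IsUltrametricDist K]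
  [IsAlgClosed K] (f : RMap K) (a a' : K) (r : ℝ), ‖a - a'‖ < r → Nw f a r = Nw f a' r

/-- sum over distinct directions at a type II point -/
def S_SUMDIR : Prop := ∀ (K : Type u) [NontriviallyNormedField K] [IsUltrametricDist K]
  [IsAlgClosed K] (f : RMap K) (a c : K) (r : ℝ), 0 < r → ‖c‖ = r →
  ∀ Z : Finset K, (∀ z ∈ Z, ‖z - a‖ ≤ r) → (∀ z ∈ Z, ∀ z' ∈ Z, z ≠ z' → r ≤ ‖z - z'‖) →
  ∑ z ∈ Z, Nw f z r ≤ Iw f a r

/-- the equality case of `Iw f a r ≤ Nw f a r' + 1` -/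
def S_S2 : Prop := ∀ (K : Type u) [NontriviallyNormedField K] [IsUltrametricDist K]
  [IsAlgClosed K] (f : RMap K) (a c : K) (r r' : ℝ), 0 < r → ‖c‖ = r → r < r' →
  Iw f a r = Nw f a r' + 1 →
  ∀ Z : Finset K, (∀ z ∈ Z, ‖z - a‖ ≤ r) → (∀ z ∈ Z, ∀ z' ∈ Z, z ≠ z' → r ≤ ‖z - z'‖) →
  ∑ z ∈ Z, Nw f z r + 1 ≤ Iw f a r

/-- the key local inequality at a fixed type II point -/
def S_S1 : Prop := ∀ (K : Type u) [NontriviallyNormedField K] [IsUltrametricDist K]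
  [IsAlgClosed K] (f : RMap K) (a c : K) (r : ℝ) (hr : 0 < r), ‖c‖ = r →
  f.act ((gauss a r hr : BA K) : P1B K) = ((gauss a r hr : BA K) : P1B K) →
  ∀ m : ℕ, IsLocalDeg f ((gauss a r hr : BA K) : P1B K) m →
  ∀ Z : Finset K, (∀ z ∈ Z, ‖z - a‖ ≤ r) → (∀ z ∈ Z, ∀ z' ∈ Z, z ≠ z' → r ≤ ‖z - z'‖) →
  ∑ z ∈ Z, Nw f z r + m ≤ Iw f a r

/-- combinatorics of discs (pure ultrametric statement) -/
def S_COMB : Prop := ∀ (K : Type u) [NontriviallyNormedField K] [IsUltrametricDist K]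
  (N : K → ℝ → ℕ),
  (∀ a a' r, ‖a - a'‖ < r → N a r = N a' r) →
  (∀ a r r', 0 < r → r ≤ r' → N a r ≤ N a r') →
  (∀ a r r', 0 < r → r < r' → (∃ c : K, ‖c‖ = r) → ∀ Z : Finset K, (∀ z ∈ Z, ‖z - a‖ ≤ r) →
    (∀ z ∈ Z, ∀ z' ∈ Z, z ≠ z' → r ≤ ‖z - z'‖) → ∑ z ∈ Z, N z r ≤ N a r') →
  ∀ (I : Finset (K × ℝ)) (w : K × ℝ → ℕ),
  (∀ p ∈ I, 0 < p.2 ∧ ∃ c : K, ‖c‖ = p.2) →
  (∀ p ∈ I, ∀ r', p.2 < r' → ∀ Z : Finset K, (∀ z ∈ Z, ‖z - p.1‖ ≤ p.2) →
    (∀ z ∈ Z, ∀ z' ∈ Z, z ≠ z' → p.2 ≤ ‖z - z'‖) → ∑ z ∈ Z, N z p.2 + w p ≤ N p.1 r') →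
  (∀ p ∈ I, ∀ q ∈ I, p ≠ q → ¬ (p.2 = q.2 ∧ ‖p.1 - q.1‖ ≤ p.2)) →
  ∀ J : Finset (K × ℝ), (∀ p ∈ J, 0 < p.2) →
  (∀ p ∈ J, ∀ q ∈ J, p ≠ q → max p.2 q.2 ≤ ‖p.1 - q.1‖) →
  (∀ p ∈ I, ∀ q ∈ J, q.2 ≤ max ‖p.1 - q.1‖ p.2) →
  ∀ (a : K) (r : ℝ), (∀ p ∈ I, ‖p.1 - a‖ < r ∧ p.2 < r) → (∀ p ∈ J, ‖p.1 - a‖ < r ∧ p.2 ≤ r) →
  ∑ p ∈ I, w p + ∑ p ∈ J, N p.1 p.2 ≤ N a r

/-- the fixed point inequality for discs -/
def S_C : Prop := ∀ (K : Type u) [NontriviallyNormedField K] [IsUltrametricDist K]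
  [IsAlgClosed K] (f : RMap K) (I : Finset (BA K)) (J : Finset (K × ℝ)) (a : K) (r : ℝ),
  (∀ x ∈ I, XF f x) → (∀ p ∈ J, 0 < p.2) →
  (∀ p ∈ J, ∀ q ∈ J, p ≠ q → max p.2 q.2 ≤ ‖p.1 - q.1‖) →
  (∀ x ∈ I, ∀ q ∈ J, q.2 ≤ lam x q.1) →
  (∀ x ∈ I, lam x a < r) → (∀ p ∈ J, ‖p.1 - a‖ < r ∧ p.2 ≤ r) → 0 < r →
  ∑ x ∈ I, (localDeg f (x : P1B K) - 1) + ∑ p ∈ J, Nw f p.1 p.2 ≤ Nw f a r

/-! ### E. local degrees -/

/-- counts in discs are locally constant away from the image of the boundary -/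
def S_LC : Prop := ∀ (K : Type u) [NontriviallyNormedField K] [IsUltrametricDist K]
  [IsAlgClosed K] (f : RMap K) (a : K) (r : ℝ) (hr : 0 < r) (y : BA K), HK y →
  f.act ((gauss a r hr : BA K) : P1B K) ≠ (y : P1B K) →
  ∃ (m m' : ℕ), ∀ᶠ b in toward (y : P1B K),
    nIn (f.P - C b * f.Q) {w | ‖w - a‖ < r} = m ∧ nIn (f.P - C b * f.Q) {w | ‖w - a‖ ≤ r} = m'

/-- the image of a segment is not constant -/
def S_NC : Prop := ∀ (K : Type u) [NontriviallyNormedField K] [IsUltrametricDist K]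
  [IsAlgClosed K] (f : RMap K) (a : K) (s t : ℝ) (y : P1B K), 0 < s → s < t →
  ∃ (r : ℝ) (hr : 0 < r), s < r ∧ r < t ∧ f.act ((gauss a r hr : BA K) : P1B K) ≠ y

/-- local degrees exist and are positive -/
def S_LDEX : Prop := ∀ (K : Type u) [NontriviallyNormedField K] [IsUltrametricDist K]
  [IsAlgClosed K] (f : RMap K) (x : BA K), HK x →
  ∃ m, 1 ≤ m ∧ IsLocalDeg f (x : P1B K) m ∧ localDeg f (x : P1B K) = m

def S_LDU : Prop := ∀ (K : Type u) [NontriviallyNormedField K] [IsUltrametricDist K]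
  [IsAlgClosed K] (f : RMap K) (x : P1B K) (m m' : ℕ),
  IsLocalDeg f x m → IsLocalDeg f x m' → m = m'

/-- chain rule for local degrees -/
def S_CHAIN : Prop := ∀ (K : Type u) [NontriviallyNormedField K] [IsUltrametricDist K]
  [IsAlgClosed K] (f g : RMap K) (x : BA K), HK x →
  localDeg (f.comp g) (x : P1B K) = localDeg f (g.act (x : P1B K)) * localDeg g (x : P1B K)

/-- continuity of `f_* φ` at points of `ℍ_K` -/
def S_T1 : Prop := ∀ (K : Type u) [NontriviallyNormedField K] [IsUltrametricDist K]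
  [IsAlgClosed K] (f : RMap K) (x : BA K), HK x → ∀ φ : C(P1B K, ℝ),
  Tendsto (fun b => ((fib f b).map φ).sum) (toward (x : P1B K)) (𝓝 (pushFun f φ (x : P1B K)))

/-- repelling fixed points of types II-IV are of type II -/
def S_TYPE2 : Prop := ∀ (K : Type u) [NontriviallyNormedField K] [IsUltrametricDist K]
  [IsAlgClosed K] (f : RMap K) (x : BA K), 2 ≤ f.d → HK x → f.act (x : P1B K) = x →
  2 ≤ localDeg f (x : P1B K) → TII x

/-- the repelling fixed points of `R^n` and their degrees are invariant under `R` -/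
def S_INVX : Prop := ∀ (K : Type u) [NontriviallyNormedField K] [IsUltrametricDist K]
  [IsAlgClosed K] (R : RMap K) (n : ℕ) (x : BA K), 2 ≤ R.d → 1 ≤ n → XF (R.iter n) x →
  ∃ y : BA K, R.act (x : P1B K) = (y : P1B K) ∧ XF (R.iter n) y ∧
    localDeg (R.iter n) (y : P1B K) = localDeg (R.iter n) (x : P1B K)

/-! ### F. Green function -/

def S_GREEN : Prop := ∀ (K : Type u) [NontriviallyNormedField K] [IsUltrametricDist K]
  [IsAlgClosed K] (R : RMap K), 2 ≤ R.d → ∃ B : ℝ, 0 < B ∧ ∀ x : BA K,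
  |gr R x - Real.log (max 1 (x X))| ≤ B ∧ ∀ n : ℕ,
    0 < max (x (R.iter n).P) (x (R.iter n).Q) ∧
    |Real.log (max (x (R.iter n).P) (x (R.iter n).Q)) / (R.d : ℝ) ^ n - gr R x| ≤ B / (R.d : ℝ) ^ n

def S_PATH0 : Prop := ∀ (K : Type u) [NontriviallyNormedField K] [IsUltrametricDist K]
  [IsAlgClosed K] (R : RMap K), 2 ≤ R.d → ∀ (c : K) (ε : ℝ), 0 < ε → ∃ δ > 0,
  ∀ (r r' : ℝ) (hr : 0 < r) (hr' : 0 < r'), r < δ → r' < δ →
    |gr R (gauss c r hr) - gr R (gauss c r' hr')| < ε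

def S_PATHI : Prop := ∀ (K : Type u) [NontriviallyNormedField K] [IsUltrametricDist K]
  [IsAlgClosed K] (R : RMap K), 2 ≤ R.d → ∀ (ε : ℝ), 0 < ε → ∃ δ > 0,
  ∀ (r r' : ℝ) (hr : 0 < r) (hr' : 0 < r'), δ < r → δ < r' →
    |(gr R (gauss 0 r hr) - Real.log r) - (gr R (gauss 0 r' hr') - Real.log r')| < ε

/-! ### G. the equilibrium measure -/

/-- kernel near the Gauss point -/
def S_KGP : Prop := ∀ (K : Type u) [NontriviallyNormedField K] [IsUltrametricDist K]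
  [IsAlgClosed K] (z : BA K), Tendsto (fun b => lam z b)
    (toward ((gauss 0 1 one_pos : BA K) : P1B K)) (𝓝 (max (z X) 1))

/-- integrals of the kernels -/
def S_KER : Prop := ∀ (K : Type u) [NontriviallyNormedField K] [IsUltrametricDist K]
  [IsAlgClosed K] (R : RMap K), 2 ≤ R.d → ∀ (ρ : Measure (P1B K)), IsProbabilityMeasure ρ →
  IsEquilibrium R ρ → ∀ (a : K) (s t : ℝ) (hs : 0 < s) (ht : 0 < t),
  ∫ x, ker a s t x ∂ρ = gr R (gauss a t ht) - gr R (gauss a s hs)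

/-- invariance -/
def S_INVM : Prop := ∀ (K : Type u) [NontriviallyNormedField K] [IsUltrametricDist K]
  [IsAlgClosed K] (R : RMap K), 2 ≤ R.d → ∀ (ρ : Measure (P1B K)), IsProbabilityMeasure ρ →
  IsEquilibrium R ρ → ∀ φ : C(P1B K, ℝ), ∀ j : ℕ,
    ∫ x, φ ((R.iter j).act x) ∂ρ = ∫ x, φ x ∂ρ

/-- exponential mixing for the kernels -/
def S_MIXK : Prop := ∀ (K : Type u) [NontriviallyNormedField K] [IsUltrametricDist K]
  [IsAlgClosed K] (R : RMap K), 2 ≤ R.d → ∀ (ρ : Measure (P1B K)), IsProbabilityMeasure ρ →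
  IsEquilibrium R ρ → ∃ B : ℝ, 0 < B ∧ ∀ (a : K) (s t : ℝ), 0 < s → 0 < t →
  ∀ (φ : C(P1B K, ℝ)), (∀ x, |φ x| ≤ 1) → ∀ j : ℕ,
    |∫ x, ker a s t x * φ ((R.iter j).act x) ∂ρ - (∫ x, ker a s t x ∂ρ) * (∫ x, φ x ∂ρ)| ≤
      B / (R.d : ℝ) ^ j

/-- kernel sums over a classical fibre -/
def S_SUMK : Prop := ∀ (K : Type u) [NontriviallyNormedField K] [IsUltrametricDist K]
  [IsAlgClosed K] (f : RMap K) (b a : K) (s t : ℝ), 0 < s → 0 < t →
  ((fib f b).map (ker a s t)).sum =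
    Real.log (gn a t (f.P - C b * f.Q)) - Real.log (gn a s (f.P - C b * f.Q))

/-- uniformly bounded potentials of the fibres of `R^n` -/
def S_SUMN : Prop := ∀ (K : Type u) [NontriviallyNormedField K] [IsUltrametricDist K]
  [IsAlgClosed K] (R : RMap K), 2 ≤ R.d → ∃ B : ℝ, 0 < B ∧ ∀ (n : ℕ) (y : BA K), HK y →
  ∀ᶠ b in toward ((gauss 0 1 one_pos : BA K) : P1B K),
    (((R.iter n).P - C b * (R.iter n).Q).roots.map (fun z =>
      Real.log (max 1 ‖z‖) + Real.log (max 1 (y X)) - Real.log (lam y z))).sum ≤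
      B * (R.d : ℝ) ^ n

/-- no atoms at classical points -/
def S_NOAT : Prop := ∀ (K : Type u) [NontriviallyNormedField K] [IsUltrametricDist K]
  [IsAlgClosed K] (R : RMap K), 2 ≤ R.d → ∀ (ρ : Measure (P1B K)), IsProbabilityMeasure ρ →
  IsEquilibrium R ρ → ρ {(OnePoint.infty : P1B K)} = 0 ∧
    ∀ c : K, ρ {((cl c : BA K) : P1B K)} = 0

/-- good radii: the sphere `{λ(a) = r}` has measure zero -/
def good {K : Type u} [NontriviallyNormedField K] (ρ : Measure (P1B K)) (a : K) (r : ℝ) : Prop :=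
  0 < r ∧ ρ {x : P1B K | ∃ y : BA K, x = (y : P1B K) ∧ lam y a = r} = 0

def S_GOOD : Prop := ∀ (K : Type u) [NontriviallyNormedField K] (ρ : Measure (P1B K)),
  IsProbabilityMeasure ρ → ∀ (a : K) (s t : ℝ), 0 ≤ s → s < t → ∃ r, s < r ∧ r < t ∧ good ρ a r

/-- asymptotics of `Nw` -/
def S_NWLIM : Prop := ∀ (K : Type u) [NontriviallyNormedField K] [IsUltrametricDist K]
  [IsAlgClosed K] (R : RMap K), 2 ≤ R.d → ∀ (ρ : Measure (P1B K)), IsProbabilityMeasure ρ →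
  IsEquilibrium R ρ → ∀ (a : K) (r : ℝ), good ρ a r →
    Tendsto (fun n => (Nw (R.iter n) a r : ℝ) / (R.d : ℝ) ^ n) atTop (𝓝 (ρ.real (ball a r)))

/-- finite partitions by discs on whose atoms a continuous function is almost constant -/
def S_TL : Prop := ∀ (K : Type u) [NontriviallyNormedField K] [IsAlgClosed K]
  (G : K → ℝ → Prop), (∀ a s t, 0 ≤ s → s < t → ∃ r, s < r ∧ r < t ∧ G a r) →
  ∀ (φ : C(P1B K, ℝ)) (ε : ℝ), 0 < ε → ∃ F : Finset (K × ℝ), (∀ p ∈ F, 0 < p.2 ∧ G p.1 p.2) ∧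
    (∀ p ∈ F, ∀ q ∈ F, p ≠ q → ¬ (p.2 = q.2 ∧ ‖p.1 - q.1‖ < p.2)) ∧
    ∀ x y : P1B K, (∀ p ∈ F, x ∈ ball p.1 p.2 ↔ y ∈ ball p.1 p.2) → |φ x - φ y| ≤ ε

open Classical in
/-- functions constant on the atoms of a finite family of discs are linear combinations of
indicators of discs -/
def S_REP : Prop := ∀ (K : Type u) [NontriviallyNormedField K] [IsUltrametricDist K]
  [IsAlgClosed K] (F : Finset (K × ℝ)), (∀ p ∈ F, 0 < p.2) →
  (∀ p ∈ F, ∀ q ∈ F, p ≠ q → ¬ (p.2 = q.2 ∧ ‖p.1 - q.1‖ < p.2)) → ∀ v : P1B K → ℝ,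
  (∀ x y : P1B K, (∀ p ∈ F, x ∈ ball p.1 p.2 ↔ y ∈ ball p.1 p.2) → v x = v y) →
  ∃ (c₀ : ℝ) (c : K × ℝ → ℝ), ∀ x : P1B K,
    v x = c₀ + ∑ p ∈ F, if x ∈ ball p.1 p.2 then c p else 0

open Classical in
/-- upper bound for step functions -/
def S_ATOM : Prop := ∀ (K : Type u) [NontriviallyNormedField K] [IsUltrametricDist K]
  [IsAlgClosed K] (f : RMap K) (F : Finset (K × ℝ)), (∀ p ∈ F, 0 < p.2) →
  (∀ p ∈ F, ∀ q ∈ F, p ≠ q → ¬ (p.2 = q.2 ∧ ‖p.1 - q.1‖ < p.2)) →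
  ∀ (c₀ : ℝ) (c : K × ℝ → ℝ),
  (∀ x : P1B K, 0 ≤ c₀ + ∑ p ∈ F, if x ∈ ball p.1 p.2 then c p else 0) →
  ∀ I : Finset (BA K), (∀ x ∈ I, XF f x) →
  ∑ x ∈ I, ((localDeg f (x : P1B K) : ℝ) - 1) *
    (c₀ + ∑ p ∈ F, if (x : P1B K) ∈ ball p.1 p.2 then c p else 0) ≤
    c₀ * f.d + ∑ p ∈ F, c p * Nw f p.1 p.2

/-- upper bound for the repelling fixed points of `R^n` in `ℍ_K` -/
def S_UB : Prop := ∀ (K : Type u) [NontriviallyNormedField K] [IsUltrametricDist K]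
  [IsAlgClosed K] (R : RMap K), 2 ≤ R.d → ∀ (ρ : Measure (P1B K)), IsProbabilityMeasure ρ →
  IsEquilibrium R ρ → ∀ φ : C(P1B K, ℝ), (∀ x, 0 ≤ φ x) → ∀ ε : ℝ, 0 < ε →
  ∀ᶠ n in atTop, ∀ I : Finset (BA K), (∀ x ∈ I, XF (R.iter n) x) →
    ∑ x ∈ I, ((localDeg (R.iter n) (x : P1B K) : ℝ) - 1) * φ (x : P1B K) ≤
      (R.d : ℝ) ^ n * (∫ x, φ x ∂ρ + ε)

/-- uniform mixing for a function `v` -/
def mixes {K : Type u} [NontriviallyNormedField K] [IsUltrametricDist K] [IsAlgClosed K]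
    (R : RMap K) (ρ : Measure (P1B K)) (v : P1B K → ℝ) : Prop :=
  ∀ ε : ℝ, 0 < ε → ∃ j₀ : ℕ, ∀ j ≥ j₀, ∀ φ : C(P1B K, ℝ), (∀ x, |φ x| ≤ 1) →
    |∫ x, v x * φ ((R.iter j).act x) ∂ρ - (∫ x, v x ∂ρ) * (∫ x, φ x ∂ρ)| ≤ ε

/-- mixing for indicators of good discs -/
def S_MIXB : Prop := ∀ (K : Type u) [NontriviallyNormedField K] [IsUltrametricDist K]
  [IsAlgClosed K] (R : RMap K), 2 ≤ R.d → ∀ (ρ : Measure (P1B K)), IsProbabilityMeasure ρ →
  IsEquilibrium R ρ → ∀ (a : K) (r : ℝ), good ρ a r →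
    mixes R ρ (Set.indicator (ball a r) (fun _ => (1 : ℝ)))

/-- mixing for continuous functions -/
def S_MIXC : Prop := ∀ (K : Type u) [NontriviallyNormedField K] [IsUltrametricDist K]
  [IsAlgClosed K] (R : RMap K), 2 ≤ R.d → ∀ (ρ : Measure (P1B K)), IsProbabilityMeasure ρ →
  IsEquilibrium R ρ → ∀ φ : C(P1B K, ℝ), mixes R ρ φ

/-- mean ergodic theorem for `ρ` -/
def S_MIX : Prop := ∀ (K : Type u) [NontriviallyNormedField K] [IsUltrametricDist K]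
  [IsAlgClosed K] (R : RMap K), 2 ≤ R.d → ∀ (ρ : Measure (P1B K)), IsProbabilityMeasure ρ →
  IsEquilibrium R ρ → ∀ φ : C(P1B K, ℝ), ∀ ε : ℝ, 0 < ε → ∃ k : ℕ, 1 ≤ k ∧
    ∫ x, |(∑ j ∈ Finset.range k, φ ((R.iter j).act x)) / k - ∫ z, φ z ∂ρ| ∂ρ ≤ ε

/-! ### J. uniform integrability -/

/-- one step estimates for the spherical diameter -/
def S_ONE : Prop := ∀ (K : Type u) [NontriviallyNormedField K] [IsUltrametricDist K]
  [IsAlgClosed K] (R : RMap K), ∃ B : ℝ, 1 ≤ B ∧ ∀ x y : BA K, TII x →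
  R.act (x : P1B K) = (y : P1B K) →
  0 < dl x ∧ dl x ≤ 1 ∧ dl y ≤ B * dl x ∧
  (∀ c : K, (wr R).eval c = 0 → dl y ≤ B * (1 + ‖c‖) ^ (2 * R.d) * lam x c * dl x) ∧
  ((wr R).coeff (2 * R.d - 2) = 0 → dl y ≤ B * dl x / max 1 (x X)) ∧
  sphDeriv R (x : P1B K) * dl x ≤ dl y

/-- repelling fixed points are not too close to critical points -/
def S_PRZ : Prop := ∀ (K : Type u) [NontriviallyNormedField K] [IsUltrametricDist K]
  [IsAlgClosed K] (R : RMap K), 2 ≤ R.d → ∃ B : ℝ, 1 ≤ B ∧ ∀ n : ℕ, 1 ≤ n → ∀ x : BA K,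
  XF (R.iter n) x → (∀ c : K, (wr R).eval c = 0 → 1 ≤ B ^ n * (1 + ‖c‖) ^ (2 * R.d) * lam x c) ∧
  ((wr R).coeff (2 * R.d - 2) = 0 → max 1 (x X) ≤ B ^ n)

/-- uniform integrability near a classical point `c` not too close to the fixed points -/
def S_UIC : Prop := ∀ (K : Type u) [NontriviallyNormedField K] [IsUltrametricDist K]
  [IsAlgClosed K] (R : RMap K), 2 ≤ R.d → ∀ (c : K) (B ε : ℝ), 1 ≤ B → 0 < ε → ∃ δ > 0,
  ∀ᶠ n in atTop, ∀ I : Finset (BA K), (∀ x ∈ I, XF (R.iter n) x ∧ 1 ≤ B ^ n * lam x c) →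
    ∑ x ∈ I, ((localDeg (R.iter n) (x : P1B K) : ℝ) - 1) * max 0 (Real.log (δ / lam x c)) ≤
      ε * (R.d : ℝ) ^ n

/-- uniform integrability near infinity -/
def S_UII : Prop := ∀ (K : Type u) [NontriviallyNormedField K] [IsUltrametricDist K]
  [IsAlgClosed K] (R : RMap K), 2 ≤ R.d → ∀ (B ε : ℝ), 1 ≤ B → 0 < ε → ∃ δ > 0,
  ∀ᶠ n in atTop, ∀ I : Finset (BA K), (∀ x ∈ I, XF (R.iter n) x ∧ x X ≤ B ^ n) →
    ∑ x ∈ I, ((localDeg (R.iter n) (x : P1B K) : ℝ) - 1) * max 0 (Real.log (x X / δ)) ≤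
      ε * (R.d : ℝ) ^ n

/-- truncated logarithm of the spherical derivative -/
noncomputable def trunc {K : Type u} [NontriviallyNormedField K] (R : RMap K) (M : ℝ) :
    P1B K → ℝ := fun x => Real.log (max (sphDeriv R x) (Real.exp (-M)))

/-- continuity of the spherical derivative -/
def S_SPHC : Prop := ∀ (K : Type u) [NontriviallyNormedField K] [IsUltrametricDist K]
  [IsAlgClosed K] (R : RMap K), Continuous (sphDeriv R) ∧ (∀ x, 0 ≤ sphDeriv R x) ∧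
  (wr R ≠ 0 → (∀ x : BA K, HK x → 0 < sphDeriv R (x : P1B K)) ∧
    {x : P1B K | sphDeriv R x = 0} ⊆ {OnePoint.infty} ∪
      {x : P1B K | ∃ c : K, (wr R).eval c = 0 ∧ x = ((cl c : BA K) : P1B K)})

/-- uniform integrability of the logarithm of the spherical derivative -/
def S_UI : Prop := ∀ (K : Type u) [NontriviallyNormedField K] [IsUltrametricDist K]
  [IsAlgClosed K] (R : RMap K), 2 ≤ R.d → wr R ≠ 0 → ∀ (ε : ℝ), 0 < ε → ∃ M : ℝ, 0 < M ∧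
  ∀ᶠ n in atTop, ∀ I : Finset (BA K), (∀ x ∈ I, XF (R.iter n) x) →
    ∑ x ∈ I, (localDeg (R.iter n) (x : P1B K) : ℝ) *
      (trunc R M (x : P1B K) - Real.log (sphDeriv R (x : P1B K))) ≤ ε * (R.d : ℝ) ^ n

/-! ### the theorem -/

def S_MAIN : Prop := ∀ (K : Type u) [NontriviallyNormedField K] [IsUltrametricDist K]
  [CompleteSpace K] [IsAlgClosed K] (R : RMap K), 2 ≤ R.d → ∀ (ρ : Measure (P1B K)),
  IsProbabilityMeasure ρ → IsEquilibrium R ρ →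
  0 < ∫ x, Real.log (sphDeriv R x) ∂ρ →
  Tendsto (fun n : ℕ => (∑' x : RFixH (R.iter n), (localDeg (R.iter n) x : ℝ≥0∞)) /
    (R.d : ℝ≥0∞) ^ n) atTop (𝓝 0)

end Pool.Agent.W95.BK
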