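import Pool.Agent.W101.BK.S1
import Pool.Agent.W103.BK.Func
import Pool.Agent.W138.BK.CHAIN
import Pool.Agent.W140.BK.Comb
import Pool.Agent.W15.BK.UIC
import Pool.Agent.W174.BK.Ker
import Pool.Agent.W193.BK.LC
import Pool.Agent.W293.BK.Nwlim
import Pool.Agent.W293.BK.Tl
import Pool.Agent.W293.BK.Ub
import Pool.Agent.W298.BK.Gen
import Pool.Agent.W298.BK.Invm
import Pool.Agent.W298.BK.Noat
import Pool.Agent.W298.BK.Path
import Pool.Agent.W298.BK.Prz
import Pool.Agent.W310.BK.Main
import Pool.Agent.W352.BKT2
import Pool.Agent.W371.BK.Top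
import Pool.Agent.W382.BK.UI
import Pool.Agent.W397.BK.Green
import Pool.Agent.W407.BK.Iter
import Pool.Agent.W410.BK.S2
import Pool.Agent.W451.BK.NPOL
import Pool.Agent.W465.BK.MixK
import Pool.Agent.W55.BK.T1
import Pool.Agent.W564.BK.Nwi
import Pool.Agent.W571.BK.Actc
import Pool.Agent.W571.BK.Sumn
import Pool.Agent.W597.BK.C
import Pool.Agent.W605.BK.SPHC
import Pool.Agent.W645.BK.Act
import Pool.Agent.W655.BK.One
import Pool.Agent.W721.BK.Center
import Pool.Agent.W721.BK.Invx
import Pool.Agent.W73.BK.Ldex
import Pool.Agent.W74.BK.NWROOT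
import Pool.Agent.W782.BKM.Mix
import Pool.Agent.W800.BK.Atom
import Pool.Agent.W800.BK.Ball
import Pool.Agent.W800.BK.Rep
import Pool.Agent.W918.BKM.Mix

/-!
# Assembly of project BK
-/

namespace Pool.Agent.W95.BK

universe u

set_option maxHeartbeats 1000000

theorem asm  : S_MAIN.{u} := by
  have hEV : S_EV.{u} := by first | exact Pool.Agent.W371.BK.ev | (apply Pool.Agent.W371.BK.ev <;> assumption)
  have hVAL : S_VAL.{u} := by first | exact Pool.Agent.W371.BK.val | (apply Pool.Agent.W371.BK.val <;> assumption)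
  have hISO : S_ISO.{u} := by first | exact Pool.Agent.W371.BK.iso | (apply Pool.Agent.W371.BK.iso <;> assumption)
  have hGLAM : S_GLAM.{u} := by first | exact Pool.Agent.W371.BK.glam | (apply Pool.Agent.W371.BK.glam <;> assumption)
  have hT2 : S_T2.{u} := by first | exact Pool.Agent.W371.BK.t2 | (apply Pool.Agent.W371.BK.t2 <;> assumption)
  have hNB : S_NB.{u} := by first | exact Pool.Agent.W371.BK.nb | (apply Pool.Agent.W371.BK.nb <;> assumption)
  have hKERC : S_KERC.{u} := by first | exact Pool.Agent.W371.BK.kerc | (apply Pool.Agent.W371.BK.kerc <;> assumption)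
  have hAVOID : S_AVOID.{u} := by first | exact Pool.Agent.W371.BK.avoid | (apply Pool.Agent.W371.BK.avoid <;> assumption)
  have hNBGEN : S_NBGEN.{u} := by first | exact Pool.Agent.W371.BK.nbgen | (apply Pool.Agent.W371.BK.nbgen <;> assumption)
  have hDVG : S_DVG.{u} := by first | exact Pool.Agent.W298.BK.Gen.dvg | (apply Pool.Agent.W298.BK.Gen.dvg <;> assumption)
  have hDENSE : S_DENSE.{u} := by first | exact Pool.Agent.W371.BK.dense | (apply Pool.Agent.W371.BK.dense <;> assumption)
  have hACT : S_ACT.{u} := by first | exact Pool.Agent.W645.BK.main | (apply Pool.Agent.W645.BK.main <;> assumption)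
  have hACTC : S_ACTC.{u} := by first | exact Pool.Agent.W571.BK.Actc.main | (apply Pool.Agent.W571.BK.Actc.main <;> assumption)
  have hFUNC : S_FUNC.{u} := by first | exact Pool.Agent.W103.BK.main | (apply Pool.Agent.W103.BK.main <;> assumption)
  have hITER : S_ITER.{u} := by first | exact Pool.Agent.W407.BK.iter | (apply Pool.Agent.W407.BK.iter <;> assumption)
  have hFIBC : S_FIBC.{u} := by first | exact Pool.Agent.W407.BK.fibc | (apply Pool.Agent.W407.BK.fibc <;> assumption)
  have hNPOL : S_NPOL.{u} := by first | exact Pool.Agent.W451.BK.main | (apply Pool.Agent.W451.BK.main <;> assumption)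
  have hGEN : S_GEN.{u} := by first | exact Pool.Agent.W298.BK.Gen.gen | (apply Pool.Agent.W298.BK.Gen.gen <;> assumption)
  have hNWI : S_NWI.{u} := by first | exact Pool.Agent.W564.BK.nwi | (apply Pool.Agent.W564.BK.nwi <;> assumption)
  have hNWROOT : S_NWROOT.{u} := by first | exact Pool.Agent.W74.BK.NWROOT.main | (apply Pool.Agent.W74.BK.NWROOT.main <;> assumption)
  have hSUMDIR : S_SUMDIR.{u} := by first | exact Pool.Agent.W721.BK.Center.sumdir | (apply Pool.Agent.W721.BK.Center.sumdir <;> assumption)
  have hCENTER : S_CENTER.{u} := by first | exact Pool.Agent.W721.BK.Center.center | (apply Pool.Agent.W721.BK.Center.center <;> assumption)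
  have hS2 : S_S2.{u} := by first | exact Pool.Agent.W410.BK.main | (apply Pool.Agent.W410.BK.main <;> assumption)
  have hS1 : S_S1.{u} := by first | exact Pool.Agent.W101.BK.main | (apply Pool.Agent.W101.BK.main <;> assumption)
  have hCOMB : S_COMB.{u} := by first | exact Pool.Agent.W140.BK.comb | (apply Pool.Agent.W140.BK.comb <;> assumption)
  have hC : S_C.{u} := by first | exact Pool.Agent.W597.BK.main | (apply Pool.Agent.W597.BK.main <;> assumption)
  have hLC : S_LC.{u} := by first | exact Pool.Agent.W193.BK.LC.lc | (apply Pool.Agent.W193.BK.LC.lc <;> assumption)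
  have hNC : S_NC.{u} := by first | exact Pool.Agent.W193.BK.LC.nc | (apply Pool.Agent.W193.BK.LC.nc <;> assumption)
  have hLDU : S_LDU.{u} := by first | exact Pool.Agent.W73.BK.ldu | (apply Pool.Agent.W73.BK.ldu <;> assumption)
  have hLDEX : S_LDEX.{u} := by first | exact Pool.Agent.W73.BK.ldex | (apply Pool.Agent.W73.BK.ldex <;> assumption)
  have hCHAIN : S_CHAIN.{u} := by first | exact Pool.Agent.W138.BK.chain | (apply Pool.Agent.W138.BK.chain <;> assumption)
  have hT1 : S_T1.{u} := by first | exact Pool.Agent.W55.BK.T1.main | (apply Pool.Agent.W55.BK.T1.main <;> assumption)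
  have hTYPE2 : S_TYPE2.{u} := by first | exact Pool.Agent.W352.BKT2.main | (apply Pool.Agent.W352.BKT2.main <;> assumption)
  have hINVX : S_INVX.{u} := by first | exact Pool.Agent.W721.BK.Invx.main | (apply Pool.Agent.W721.BK.Invx.main <;> assumption)
  have hGREEN : S_GREEN.{u} := by first | exact Pool.Agent.W397.BK.green | (apply Pool.Agent.W397.BK.green <;> assumption)
  have hPATH0 : S_PATH0.{u} := by first | exact Pool.Agent.W298.BK.Path.path0 | (apply Pool.Agent.W298.BK.Path.path0 <;> assumption)
  have hPATHI : S_PATHI.{u} := by first | exact Pool.Agent.W298.BK.Path.pathi | (apply Pool.Agent.W298.BK.Path.pathi <;> assumption)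
  have hKGP : S_KGP.{u} := by first | exact Pool.Agent.W174.BK.Ker.kgp | (apply Pool.Agent.W174.BK.Ker.kgp <;> assumption)
  have hSUMN : S_SUMN.{u} := by first | exact Pool.Agent.W571.BK.Sumn.main | (apply Pool.Agent.W571.BK.Sumn.main <;> assumption)
  have hSUMK : S_SUMK.{u} := by first | exact Pool.Agent.W174.BK.Ker.sumk | (apply Pool.Agent.W174.BK.Ker.sumk <;> assumption)
  have hKER : S_KER.{u} := by first | exact Pool.Agent.W174.BK.Ker.ker | (apply Pool.Agent.W174.BK.Ker.ker <;> assumption)
  have hINVM : S_INVM.{u} := by first | exact Pool.Agent.W298.BK.Invm.main | (apply Pool.Agent.W298.BK.Invm.main <;> assumption)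
  have hMIXK : S_MIXK.{u} := by first | exact Pool.Agent.W465.BK.MixK.main | (apply Pool.Agent.W465.BK.MixK.main <;> assumption)
  have hGOOD : S_GOOD.{u} := by first | exact Pool.Agent.W298.BK.Noat.good' | (apply Pool.Agent.W298.BK.Noat.good' <;> assumption)
  have hTL : S_TL.{u} := by first | exact Pool.Agent.W293.BK.tl | (apply Pool.Agent.W293.BK.tl <;> assumption)
  have hREP : S_REP.{u} := by first | exact Pool.Agent.W800.BK.Rep.main | (apply Pool.Agent.W800.BK.Rep.main <;> assumption)
  have hATOM : S_ATOM.{u} := by first | exact Pool.Agent.W800.BK.Atom.main | (apply Pool.Agent.W800.BK.Atom.main <;> assumption)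
  have hNOAT : S_NOAT.{u} := by first | exact Pool.Agent.W298.BK.Noat.noat | (apply Pool.Agent.W298.BK.Noat.noat <;> assumption)
  have hNWLIM : S_NWLIM.{u} := by first | exact Pool.Agent.W293.BK.nwlim | (apply Pool.Agent.W293.BK.nwlim <;> assumption)
  have hUB : S_UB.{u} := by first | exact Pool.Agent.W293.BK.ub | (apply Pool.Agent.W293.BK.ub <;> assumption)
  have hMIXB : S_MIXB.{u} := by first | exact Pool.Agent.W918.BKM.mixb | (apply Pool.Agent.W918.BKM.mixb <;> assumption)
  have hMIXC : S_MIXC.{u} := by first | exact Pool.Agent.W918.BKM.mixc | (apply Pool.Agent.W918.BKM.mixc <;> assumption)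
  have hMIX : S_MIX.{u} := by first | exact Pool.Agent.W782.BKM.main | (apply Pool.Agent.W782.BKM.main <;> assumption)
  have hONE : S_ONE.{u} := by first | exact Pool.Agent.W655.BK.main | (apply Pool.Agent.W655.BK.main <;> assumption)
  have hPRZ : S_PRZ.{u} := by first | exact Pool.Agent.W298.BK.Prz.main | (apply Pool.Agent.W298.BK.Prz.main <;> assumption)
  have hUIC : S_UIC.{u} := by first | exact Pool.Agent.W15.BK.uic | (apply Pool.Agent.W15.BK.uic <;> assumption)
  have hUII : S_UII.{u} := by first | exact Pool.Agent.W15.BK.uii | (apply Pool.Agent.W15.BK.uii <;> assumption)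
  have hUI : S_UI.{u} := by first | exact Pool.Agent.W382.BK.UI.main | (apply Pool.Agent.W382.BK.UI.main <;> assumption)
  have hSPHC : S_SPHC.{u} := by first | exact Pool.Agent.W605.BK.SPHC.main | (apply Pool.Agent.W605.BK.SPHC.main <;> assumption)
  have hMAIN : S_MAIN.{u} := by first | exact W310.BK.Main.main | (apply W310.BK.Main.main <;> assumption)
  exact hMAIN

end Pool.Agent.W95.BK
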