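import Mathlib

/-!
# Berkovich projective line over an algebraically closed non-Archimedean field:
# definitions for project BK
-/

open Polynomial Topology Filter MeasureTheory
open scoped ENNReal

namespace Pool.Agent.W95.BK

universe u

/-! ## homogeneous substitution -/

/-- `hom N h a b = ∑_{i ≤ N} h_i a^i b^(N-i)`: the homogenisation of degree `N` of `h`,
evaluated at the polynomials `a`, `b`. -/
noncomputable def hom {K : Type u} [Field K] (N : ℕ) (h a b : K[X]) : K[X] :=
  ∑ i ∈ Finset.range (N + 1), C (h.coeff i) * a ^ i * b ^ (N - i)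

section homlemmas
variable {K : Type u} [Field K]

lemma hom_add (N : ℕ) (h k a b : K[X]) : hom N (h + k) a b = hom N h a b + hom N k a b := by
  simp only [hom, coeff_add, C_add, add_mul, Finset.sum_add_distrib]

lemma hom_sum {ι : Type*} (s : Finset ι) (N : ℕ) (h : ι → K[X]) (a b : K[X]) :
    hom N (∑ i ∈ s, h i) a b = ∑ i ∈ s, hom N (h i) a b := by
  classical
  induction s using Finset.induction_on with
  | empty => simp [hom]
  | insert i s hi ih => rw [Finset.sum_insert hi, Finset.sum_insert hi, hom_add, ih]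

lemma hom_monomial {N i : ℕ} (hi : i ≤ N) (c : K) (a b : K[X]) :
    hom N (monomial i c) a b = C c * a ^ i * b ^ (N - i) := by
  unfold hom
  rw [Finset.sum_eq_single i]
  · simp
  · intro j _ hj
    simp [coeff_monomial, Ne.symm hj]
  · intro h
    exact absurd (Finset.mem_range.2 (by omega)) h

lemma hom_mul {N M : ℕ} {h k : K[X]} (hh : h.natDegree ≤ N) (hk : k.natDegree ≤ M)
    (a b : K[X]) : hom (N + M) (h * k) a b = hom N h a b * hom M k a b := by
  have e1 : h = ∑ i ∈ Finset.range (N + 1), monomial i (h.coeff i) :=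
    h.as_sum_range' (N + 1) (by omega)
  have e2 : k = ∑ i ∈ Finset.range (M + 1), monomial i (k.coeff i) :=
    k.as_sum_range' (M + 1) (by omega)
  have e3 : h * k = ∑ i ∈ Finset.range (N + 1), ∑ j ∈ Finset.range (M + 1),
      monomial (i + j) (h.coeff i * k.coeff j) := by
    conv_lhs => rw [e1, e2]
    rw [Finset.sum_mul_sum]
    refine Finset.sum_congr rfl fun i _ => Finset.sum_congr rfl fun j _ => ?_
    rw [monomial_mul_monomial]
  rw [e3, hom_sum]
  have e4 : hom N h a b * hom M k a b = ∑ i ∈ Finset.range (N + 1),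
      ∑ j ∈ Finset.range (M + 1), (C (h.coeff i) * a ^ i * b ^ (N - i)) *
        (C (k.coeff j) * a ^ j * b ^ (M - j)) := by
    unfold hom
    rw [Finset.sum_mul_sum]
  rw [e4]
  refine Finset.sum_congr rfl fun i hi => ?_
  rw [hom_sum]
  refine Finset.sum_congr rfl fun j hj => ?_
  have hi' : i ≤ N := by have := Finset.mem_range.1 hi; omega
  have hj' : j ≤ M := by have := Finset.mem_range.1 hj; omega
  rw [hom_monomial (by omega)]
  have : N + M - (i + j) = (N - i) + (M - j) := by omega
  rw [this, C_mul]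
  ring

lemma hom_succ {N : ℕ} {h : K[X]} (hh : h.natDegree ≤ N) (a b : K[X]) :
    hom (N + 1) h a b = b * hom N h a b := by
  have := hom_mul (N := N) (M := 1) (h := h) (k := 1) hh (by simp) a b
  rw [mul_one] at this
  rw [this, mul_comm]
  congr 1
  simp [hom, coeff_one]

lemma hom_add_right {N : ℕ} {h : K[X]} (hh : h.natDegree ≤ N) (k : ℕ) (a b : K[X]) :
    hom (N + k) h a b = b ^ k * hom N h a b := by
  induction k with
  | zero => simp
  | succ k ih => rw [← add_assoc, hom_succ (by omega), ih, pow_succ]; ring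

end homlemmas

/-! ## the Berkovich affine line -/

/-- Points of the Berkovich affine line over `K`: multiplicative non-Archimedean seminorms on
`K[X]` extending the absolute value of `K`. -/
structure BA (K : Type u) [NontriviallyNormedField K] where
  toFun : K[X] → ℝ
  nonneg' : ∀ f, 0 ≤ toFun f
  map_C' : ∀ a, toFun (C a) = ‖a‖
  map_mul' : ∀ f g, toFun (f * g) = toFun f * toFun g
  map_add' : ∀ f g, toFun (f + g) ≤ max (toFun f) (toFun g)

section BA
variable {K : Type u} [NontriviallyNormedField K]

instance : CoeFun (BA K) (fun _ => K[X] → ℝ) := ⟨BA.toFun⟩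

@[ext] lemma BA.ext {x y : BA K} (h : ∀ f, x f = y f) : x = y := by
  cases x; cases y; congr; funext f; exact h f

/-- The Berkovich topology on the affine line: pointwise convergence on `K[X]`. -/
instance : TopologicalSpace (BA K) := TopologicalSpace.induced (fun x : BA K => x.toFun) inferInstance

/-- The Berkovich projective line over `K`: the one point compactification of the affine line
(the added point is the classical point `∞`). -/
abbrev P1B (K : Type u) [NontriviallyNormedField K] := OnePoint (BA K)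

/-- The classical point `a ∈ K` (type I) of the affine line: `f ↦ ‖f(a)‖`. -/
noncomputable def cl [IsUltrametricDist K] (a : K) : BA K where
  toFun f := ‖f.eval a‖
  nonneg' _ := norm_nonneg _
  map_C' b := by simp
  map_mul' f g := by simp
  map_add' f g := by simpa using IsUltrametricDist.norm_add_le_max (f.eval a) (g.eval a)

/-- The hyperbolic part of the affine line: points of types II, III, IV. -/
def HK [IsUltrametricDist K] (x : BA K) : Prop := ∀ a : K, x ≠ cl a

lemma isNonarch [IsUltrametricDist K] :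
    IsNonarchimedean (fun x : K => (NormedField.toAbsoluteValue K) x) := by
  intro x y
  exact IsUltrametricDist.norm_add_le_max x y

/-- The point `ζ_{a,r}` (`r > 0`), the sup norm on the disc `{|z - a| ≤ r}`:
`f = ∑ c_i (X - a)^i ↦ max |c_i| r^i`. -/
noncomputable def gauss [IsUltrametricDist K] (a : K) (r : ℝ) (hr : 0 < r) : BA K where
  toFun f := (taylor a f).gaussNorm (NormedField.toAbsoluteValue K) r
  nonneg' f := gaussNorm_nonneg _ _ hr.le
  map_C' b := by
    rw [taylor_C, gaussNorm_C]
    rfl
  map_mul' f g := by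
    rw [taylor_mul]
    exact gaussNorm_mul isNonarch hr _ _
  map_add' f g := by
    rw [map_add]
    exact isNonarchimedean_gaussNorm _ isNonarch hr.le _ _

end BA

/-! ## rational maps -/

/-- A rational map `P/Q` of degree `d = max (deg P) (deg Q) ≥ 1`, with `P`, `Q` coprime. -/
structure RMap (K : Type u) [Field K] where
  P : K[X]
  Q : K[X]
  d : ℕ
  cop : IsCoprime P Q
  deg_eq : max P.natDegree Q.natDegree = d
  pos : 1 ≤ d

section hom2
variable {K : Type u} [Field K]

lemma natDegree_hom_le {N m : ℕ} (h : K[X]) {a b : K[X]} (ha : a.natDegree ≤ m)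
    (hb : b.natDegree ≤ m) : (hom N h a b).natDegree ≤ N * m := by
  refine natDegree_sum_le_of_forall_le _ _ fun i hi => ?_
  have hi' : i ≤ N := by have := Finset.mem_range.1 hi; omega
  have h1 : (C (h.coeff i) * a ^ i).natDegree ≤ i * m :=
    (natDegree_C_mul_le _ _).trans (natDegree_pow_le_of_le i ha)
  have h2 : (b ^ (N - i)).natDegree ≤ (N - i) * m := natDegree_pow_le_of_le _ hb
  calc _ ≤ i * m + (N - i) * m := natDegree_mul_le_of_le h1 h2
    _ = N * m := by rw [← add_mul]; congr 1; omega

lemma coeff_hom_top {N m : ℕ} (h : K[X]) {a b : K[X]} (ha : a.natDegree ≤ m)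
    (hb : b.natDegree ≤ m) : (hom N h a b).coeff (N * m) =
      ∑ i ∈ Finset.range (N + 1), h.coeff i * a.coeff m ^ i * b.coeff m ^ (N - i) := by
  unfold hom
  rw [finsetSum_coeff]
  refine Finset.sum_congr rfl fun i hi => ?_
  have hi' : i ≤ N := by have := Finset.mem_range.1 hi; omega
  have e : N * m = i * m + (N - i) * m := by rw [← add_mul]; congr 1; omega
  have h1 : (C (h.coeff i) * a ^ i).natDegree ≤ i * m :=
    (natDegree_C_mul_le _ _).trans (natDegree_pow_le_of_le i ha)
  have h2 : (b ^ (N - i)).natDegree ≤ (N - i) * m := natDegree_pow_le_of_le _ hb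
  rw [e, coeff_mul_add_eq_of_natDegree_le h1 h2, coeff_C_mul, coeff_pow_of_natDegree_le ha,
    coeff_pow_of_natDegree_le hb]

lemma eval_hom (N : ℕ) (h a b : K[X]) (t : K) : (hom N h a b).eval t =
    ∑ i ∈ Finset.range (N + 1), h.coeff i * a.eval t ^ i * b.eval t ^ (N - i) := by
  unfold hom
  rw [eval_finsetSum]
  simp

lemma sum_eq_eval {N : ℕ} {h : K[X]} (hh : h.natDegree ≤ N) (s t : K) (ht : t ≠ 0) :
    ∑ i ∈ Finset.range (N + 1), h.coeff i * s ^ i * t ^ (N - i) = t ^ N * h.eval (s / t) := by
  rw [eval_eq_sum_range' (n := N + 1) (by omega), Finset.mul_sum]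
  refine Finset.sum_congr rfl fun i hi => ?_
  have hi' : i ≤ N := by have := Finset.mem_range.1 hi; omega
  rw [div_pow]
  have : t ^ N = t ^ (N - i) * t ^ i := by rw [← pow_add]; congr 1; omega
  rw [this]
  field_simp

lemma sum_eq_top (N : ℕ) (h : K[X]) (s : K) :
    ∑ i ∈ Finset.range (N + 1), h.coeff i * s ^ i * (0 : K) ^ (N - i) = h.coeff N * s ^ N := by
  rw [Finset.sum_eq_single N]
  · simp
  · intro i hi hne
    have hi' : i ≤ N := by have := Finset.mem_range.1 hi; omega
    rw [zero_pow (by omega)]; simp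
  · intro h; exact absurd (Finset.mem_range.2 (by omega)) h

/-- homogeneous non-vanishing of a coprime pair of degree `d` -/
lemma nonvanish {P Q : K[X]} {d : ℕ} (cop : IsCoprime P Q)
    (hd : max P.natDegree Q.natDegree = d) (s t : K) (hst : ¬ (s = 0 ∧ t = 0)) :
    ¬ ((∑ i ∈ Finset.range (d + 1), P.coeff i * s ^ i * t ^ (d - i) = 0) ∧
      (∑ i ∈ Finset.range (d + 1), Q.coeff i * s ^ i * t ^ (d - i) = 0)) := by
  have hP : P.natDegree ≤ d := hd ▸ le_max_left _ _
  have hQ : Q.natDegree ≤ d := hd ▸ le_max_right _ _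
  rintro ⟨h1, h2⟩
  by_cases ht : t = 0
  · subst ht
    have hs : s ≠ 0 := fun h => hst ⟨h, rfl⟩
    rw [sum_eq_top] at h1 h2
    have h1' : P.coeff d = 0 := by simpa [hs] using h1
    have h2' : Q.coeff d = 0 := by simpa [hs] using h2
    rcases max_cases P.natDegree Q.natDegree with ⟨h, _⟩ | ⟨h, _⟩
    · rw [hd] at h
      have hP0 : P = 0 := by
        rw [← leadingCoeff_eq_zero, leadingCoeff, ← h, h1']
      have hd0 : d = 0 := by rw [h, hP0]; simp
      have hQ0 : Q = 0 := by
        rw [← leadingCoeff_eq_zero, leadingCoeff]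
        have : Q.natDegree = 0 := by omega
        rw [this]; rw [hd0] at h2'; exact h2'
      rw [hP0, hQ0] at cop
      exact not_isCoprime_zero_zero cop
    · rw [hd] at h
      have hQ0 : Q = 0 := by
        rw [← leadingCoeff_eq_zero, leadingCoeff, ← h, h2']
      have hd0 : d = 0 := by rw [h, hQ0]; simp
      have hP0 : P = 0 := by
        rw [← leadingCoeff_eq_zero, leadingCoeff]
        have : P.natDegree = 0 := by omega
        rw [this]; rw [hd0] at h1'; exact h1'
      rw [hP0, hQ0] at cop
      exact not_isCoprime_zero_zero cop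
  · rw [sum_eq_eval hP _ _ ht] at h1
    rw [sum_eq_eval hQ _ _ ht] at h2
    have h1' : P.eval (s / t) = 0 := by simpa [ht] using h1
    have h2' : Q.eval (s / t) = 0 := by simpa [ht] using h2
    obtain ⟨a, b, hab⟩ := cop
    have := congrArg (eval (s / t)) hab
    simp [h1', h2'] at this

lemma hom_cop [IsAlgClosed K] {P Q a b : K[X]} {d : ℕ} (cop : IsCoprime P Q)
    (hd : max P.natDegree Q.natDegree = d) (cop' : IsCoprime a b) :
    IsCoprime (hom d P a b) (hom d Q a b) := by
  classical
  by_contra hc
  rw [← EuclideanDomain.gcd_isUnit_iff] at hc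
  have hdeg : (EuclideanDomain.gcd (hom d P a b) (hom d Q a b)).degree ≠ 0 := by
    intro h
    exact hc (isUnit_iff_degree_eq_zero.2 h)
  obtain ⟨t, ht⟩ := IsAlgClosed.exists_root _ hdeg
  have h1 : (hom d P a b).eval t = 0 := by
    obtain ⟨c, hc⟩ := EuclideanDomain.gcd_dvd_left (hom d P a b) (hom d Q a b)
    rw [hc, eval_mul, ht.eq_zero, zero_mul]
  have h2 : (hom d Q a b).eval t = 0 := by
    obtain ⟨c, hc⟩ := EuclideanDomain.gcd_dvd_right (hom d P a b) (hom d Q a b)
    rw [hc, eval_mul, ht.eq_zero, zero_mul]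
  rw [eval_hom] at h1 h2
  refine nonvanish cop hd (a.eval t) (b.eval t) ?_ ⟨h1, h2⟩
  rintro ⟨ha, hb⟩
  obtain ⟨x, y, hxy⟩ := cop'
  have := congrArg (eval t) hxy
  simp [ha, hb] at this

lemma hom_deg {P Q a b : K[X]} {d m : ℕ} (cop : IsCoprime P Q)
    (hd : max P.natDegree Q.natDegree = d) (hm : max a.natDegree b.natDegree = m)
    (hm1 : 1 ≤ m) :
    max (hom d P a b).natDegree (hom d Q a b).natDegree = d * m := by
  have ha : a.natDegree ≤ m := hm ▸ le_max_left _ _
  have hb : b.natDegree ≤ m := hm ▸ le_max_right _ _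
  have h1 := natDegree_hom_le (N := d) P ha hb
  have h2 := natDegree_hom_le (N := d) Q ha hb
  refine le_antisymm (max_le h1 h2) ?_
  by_contra hlt
  push Not at hlt
  have e1 : (hom d P a b).coeff (d * m) = 0 :=
    coeff_eq_zero_of_natDegree_lt (lt_of_le_of_lt (le_max_left _ _) hlt)
  have e2 : (hom d Q a b).coeff (d * m) = 0 :=
    coeff_eq_zero_of_natDegree_lt (lt_of_le_of_lt (le_max_right _ _) hlt)
  rw [coeff_hom_top _ ha hb] at e1 e2
  refine nonvanish cop hd (a.coeff m) (b.coeff m) ?_ ⟨e1, e2⟩
  rintro ⟨ha0, hb0⟩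
  rcases max_cases a.natDegree b.natDegree with ⟨h, _⟩ | ⟨h, _⟩
  · rw [hm] at h
    have : a = 0 := by rw [← leadingCoeff_eq_zero, leadingCoeff, ← h, ha0]
    rw [this] at h; simp at h; omega
  · rw [hm] at h
    have : b = 0 := by rw [← leadingCoeff_eq_zero, leadingCoeff, ← h, hb0]
    rw [this] at h; simp at h; omega

end hom2

/-- Composition `f ∘ g` of rational maps. -/
noncomputable def RMap.comp {K : Type u} [Field K] [IsAlgClosed K] (f g : RMap K) : RMap K where
  P := hom f.d f.P g.P g.Q
  Q := hom f.d f.Q g.P g.Q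
  d := f.d * g.d
  cop := hom_cop f.cop f.deg_eq g.cop
  deg_eq := hom_deg f.cop f.deg_eq g.deg_eq g.pos
  pos := Nat.mul_pos f.pos g.pos

/-- The identity map. -/
noncomputable def RMap.id (K : Type u) [Field K] : RMap K where
  P := X
  Q := 1
  d := 1
  cop := isCoprime_one_right
  deg_eq := by simp
  pos := le_rfl

/-- The iterates `R^n`. -/
noncomputable def RMap.iter {K : Type u} [Field K] [IsAlgClosed K] (R : RMap K) : ℕ → RMap K
  | 0 => RMap.id K
  | n + 1 => R.comp (R.iter n)

section act
variable {K : Type u} [NontriviallyNormedField K]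

lemma BA.map_zero (x : BA K) : x 0 = 0 := by
  have := x.map_C' 0
  simpa using this

lemma BA.map_one (x : BA K) : x 1 = 1 := by
  have := x.map_C' 1
  simpa using this

lemma BA.map_pow (x : BA K) (f : K[X]) (n : ℕ) : x (f ^ n) = x f ^ n := by
  induction n with
  | zero => simp [BA.map_one]
  | succ n ih => rw [pow_succ, x.map_mul', ih, pow_succ]

/-- Image of a point `x` of the affine line under `P/Q`, when `x` is not a zero of `Q`:
`h ↦ |h(P/Q)|_x`. -/
noncomputable def push (f : RMap K) (x : BA K) (hx : x f.Q ≠ 0) : BA K where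
  toFun h := x (hom h.natDegree h f.P f.Q) / x f.Q ^ h.natDegree
  nonneg' h := div_nonneg (x.nonneg' _) (pow_nonneg (x.nonneg' _) _)
  map_C' a := by
    simp [hom, x.map_C']
  map_mul' h k := by
    by_cases hh : h = 0
    · simp [hh, hom, BA.map_zero]
    by_cases hk : k = 0
    · simp [hk, hom, BA.map_zero]
    rw [natDegree_mul hh hk, hom_mul le_rfl le_rfl, x.map_mul', pow_add]
    rw [mul_div_mul_comm]
  map_add' h k := by
    have key : ∀ (N : ℕ) (l : K[X]), l.natDegree ≤ N →
        x (hom l.natDegree l f.P f.Q) / x f.Q ^ l.natDegree =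
          x (hom N l f.P f.Q) / x f.Q ^ N := by
      intro N l hl
      obtain ⟨j, rfl⟩ := Nat.exists_eq_add_of_le hl
      rw [hom_add_right le_rfl, x.map_mul', BA.map_pow, pow_add,
        mul_comm (x f.Q ^ l.natDegree)]
      rw [mul_div_mul_left _ _ (pow_ne_zero _ hx)]
    set N := max h.natDegree k.natDegree with hN
    have h1 : h.natDegree ≤ N := le_max_left _ _
    have h2 : k.natDegree ≤ N := le_max_right _ _
    have h3 : (h + k).natDegree ≤ N := natDegree_add_le h k
    rw [key N _ h1, key N _ h2, key N _ h3, hom_add]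
    have hpos : 0 < x f.Q ^ N := pow_pos (lt_of_le_of_ne (x.nonneg' _) (Ne.symm hx)) _
    rw [max_div_div_right hpos.le]
    exact div_le_div_of_nonneg_right (x.map_add' _ _) hpos.le

open Classical in
/-- The action of a rational map on the Berkovich projective line. -/
noncomputable def RMap.act [IsUltrametricDist K] (f : RMap K) : P1B K → P1B K := fun x =>
  x.elim (if f.Q.coeff f.d = 0 then (OnePoint.infty : P1B K)
      else ((cl (f.P.coeff f.d / f.Q.coeff f.d) : BA K) : P1B K))
    (fun y => if h : y f.Q ≠ 0 then ((push f y h : BA K) : P1B K) else OnePoint.infty)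

/-- The fibre of `f` over a classical point `b ∈ K`: the multiset of the `d` classical solutions
of `f(w) = b` in `ℙ¹(K)`, with multiplicities. -/
noncomputable def fib [IsUltrametricDist K] (f : RMap K) (b : K) : Multiset (P1B K) :=
  ((f.P - C b * f.Q).roots.map (fun w => ((cl w : BA K) : P1B K))) +
    Multiset.replicate (f.d - (f.P - C b * f.Q).natDegree) OnePoint.infty

open Classical in
/-- Number of solutions of `f(w) = b` in the set `U` (with multiplicities). -/
noncomputable def cnt [IsUltrametricDist K] (f : RMap K) (U : Set (P1B K)) (b : K) : ℕ :=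
  ((fib f b).filter (fun w => w ∈ U)).card

/-- The filter of classical points `b ∈ K` tending to `y`. -/
noncomputable def toward [IsUltrametricDist K] (y : P1B K) : Filter K :=
  comap (fun b : K => ((cl b : BA K) : P1B K)) (𝓝 y)

/-- `m` is the local degree of `f` at `x`: there are arbitrarily small neighbourhoods `U` of `x`
such that every classical point `b` close to `f(x)` has exactly `m` preimages in `U`
(counted with multiplicities). -/
def IsLocalDeg [IsUltrametricDist K] (f : RMap K) (x : P1B K) (m : ℕ) : Prop :=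
  ∀ U₀ ∈ 𝓝 x, ∃ U ∈ 𝓝 x, U ⊆ U₀ ∧ ∀ᶠ b in toward (f.act x), cnt f U b = m

open Classical in
/-- The local degree `deg_f(x)` of `f` at `x`. -/
noncomputable def localDeg [IsUltrametricDist K] (f : RMap K) (x : P1B K) : ℕ :=
  if h : ∃ m, IsLocalDeg f x m then Nat.find h else 0

/-- The Wronskian `P'Q - PQ'` of `f = P/Q`, the numerator of `f'`. -/
noncomputable def wr (f : RMap K) : K[X] := derivative f.P * f.Q - f.P * derivative f.Q

/-- The spherical derivative of `f` on the Berkovich projective line. At a classical point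
`z ∈ K` which is not a pole it is `|f'(z)| max(1,|z|)² / max(1,|f(z)|)²`. -/
noncomputable def sphDeriv (f : RMap K) : P1B K → ℝ := fun x =>
  x.elim (‖(wr f).coeff (2 * f.d - 2)‖ / max ‖f.P.coeff f.d‖ ‖f.Q.coeff f.d‖ ^ 2)
    (fun y => y (wr f) * max 1 (y X) ^ 2 / max (y f.P) (y f.Q) ^ 2)

instance instMeasurableSpaceP1B : MeasurableSpace (P1B K) := borel _
instance instBorelSpaceP1B : BorelSpace (P1B K) := ⟨rfl⟩

/-- `f_* φ (x) = ∑_{f(y) = x} deg_f(y) φ(y)` -/
noncomputable def pushFun [IsUltrametricDist K] (f : RMap K) (φ : P1B K → ℝ) (x : P1B K) : ℝ :=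
  ∑ᶠ y ∈ {y : P1B K | f.act y = x}, (localDeg f y : ℝ) * φ y

/-- `ρ` is the equilibrium measure of `R`: for every point `x` of types II, III, IV the
normalised pull-backs `d^{-n} (R^n)^* δ_x` converge weakly to `ρ`. -/
def IsEquilibrium [IsUltrametricDist K] [IsAlgClosed K] (R : RMap K) (ρ : Measure (P1B K)) :
    Prop :=
  ∀ x : BA K, HK x → ∀ φ : C(P1B K, ℝ),
    Tendsto (fun n => pushFun (R.iter n) φ (x : P1B K) / (R.d : ℝ) ^ n) atTop
      (𝓝 (∫ z, φ z ∂ρ))

/-- Repelling fixed points of `f` in `ℍ_K`: fixed points of types II, III, IV with local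
degree at least two. -/
def RFixH [IsUltrametricDist K] (f : RMap K) : Set (P1B K) :=
  {x | ∃ y : BA K, HK y ∧ x = (y : P1B K) ∧ f.act x = x ∧ 2 ≤ localDeg f x}

end act
end Pool.Agent.W95.BK
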