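import Pool.Agent.W101.BK.S1
import Pool.Agent.W103.BK.Func
import Pool.Agent.W138.BK.CHAIN
import Pool.Agent.W140.BK.Comb
import Pool.Agent.W15.BK.UIC
import Pool.Agent.W174.BK.Ker
import Pool.Agent.W193.BK.LC
import Pool.Agent.W293.BK.Nwlim
import Pool.Agent.W293.BK.Tl
import Pool.Agent.W293.BK.Ub
import Pool.Agent.W298.BK.Gen
import Pool.Agent.W298.BK.Invm
import Pool.Agent.W298.BK.Noat
import Pool.Agent.W298.BK.Path
import Pool.Agent.W298.BK.Prz
import Pool.Agent.W310.BK.Main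
import Pool.Agent.W352.BKT2
import Pool.Agent.W371.BK.Top
import Pool.Agent.W382.BK.UI
import Pool.Agent.W397.BK.Green
import Pool.Agent.W407.BK.Iter
import Pool.Agent.W410.BK.S2
import Pool.Agent.W451.BK.NPOL
import Pool.Agent.W465.BK.MixK
import Pool.Agent.W55.BK.T1
import Pool.Agent.W564.BK.Nwi
import Pool.Agent.W571.BK.Actc
import Pool.Agent.W571.BK.Sumn
import Pool.Agent.W597.BK.C
import Pool.Agent.W605.BK.SPHC
import Pool.Agent.W645.BK.Act
import Pool.Agent.W655.BK.One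
import Pool.Agent.W721.BK.Center
import Pool.Agent.W721.BK.Invx
import Pool.Agent.W73.BK.Ldex
import Pool.Agent.W74.BK.NWROOT
import Pool.Agent.W782.BKM.Mix
import Pool.Agent.W800.BK.Atom
import Pool.Agent.W800.BK.Ball
import Pool.Agent.W800.BK.Rep
import Pool.Agent.W918.BKM.Mix

/-!
# The library of project BK: every statement `S_X` as a theorem `tX`
-/

namespace Pool.Agent.W95.BK.Lib

open Pool.Agent.W95.BK

universe u

theorem tEV : S_EV.{u} := by
  first | exact Pool.Agent.W371.BK.ev | (apply Pool.Agent.W371.BK.ev <;> assumption)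

theorem tVAL : S_VAL.{u} := by
  have hEV := tEV.{u}
  first | exact Pool.Agent.W371.BK.val | (apply Pool.Agent.W371.BK.val <;> assumption)

theorem tISO : S_ISO.{u} := by
  have hEV := tEV.{u}
  have hVAL := tVAL.{u}
  first | exact Pool.Agent.W371.BK.iso | (apply Pool.Agent.W371.BK.iso <;> assumption)

theorem tGLAM : S_GLAM.{u} := by
  have hEV := tEV.{u}
  have hVAL := tVAL.{u}
  have hISO := tISO.{u}
  first | exact Pool.Agent.W371.BK.glam | (apply Pool.Agent.W371.BK.glam <;> assumption)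

theorem tT2 : S_T2.{u} := by
  have hEV := tEV.{u}
  have hVAL := tVAL.{u}
  have hISO := tISO.{u}
  have hGLAM := tGLAM.{u}
  first | exact Pool.Agent.W371.BK.t2 | (apply Pool.Agent.W371.BK.t2 <;> assumption)

theorem tNB : S_NB.{u} := by
  have hEV := tEV.{u}
  have hVAL := tVAL.{u}
  have hISO := tISO.{u}
  have hGLAM := tGLAM.{u}
  have hT2 := tT2.{u}
  first | exact Pool.Agent.W371.BK.nb | (apply Pool.Agent.W371.BK.nb <;> assumption)

theorem tKERC : S_KERC.{u} := by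
  have hEV := tEV.{u}
  have hVAL := tVAL.{u}
  have hISO := tISO.{u}
  have hGLAM := tGLAM.{u}
  have hT2 := tT2.{u}
  have hNB := tNB.{u}
  first | exact Pool.Agent.W371.BK.kerc | (apply Pool.Agent.W371.BK.kerc <;> assumption)

theorem tAVOID : S_AVOID.{u} := by
  have hEV := tEV.{u}
  have hVAL := tVAL.{u}
  have hISO := tISO.{u}
  have hGLAM := tGLAM.{u}
  have hT2 := tT2.{u}
  have hNB := tNB.{u}
  have hKERC := tKERC.{u}
  first | exact Pool.Agent.W371.BK.avoid | (apply Pool.Agent.W371.BK.avoid <;> assumption)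

theorem tNBGEN : S_NBGEN.{u} := by
  have hEV := tEV.{u}
  have hVAL := tVAL.{u}
  have hISO := tISO.{u}
  have hGLAM := tGLAM.{u}
  have hT2 := tT2.{u}
  have hNB := tNB.{u}
  have hKERC := tKERC.{u}
  have hAVOID := tAVOID.{u}
  first | exact Pool.Agent.W371.BK.nbgen | (apply Pool.Agent.W371.BK.nbgen <;> assumption)

theorem tDVG : S_DVG.{u} := by
  have hEV := tEV.{u}
  have hVAL := tVAL.{u}
  have hISO := tISO.{u}
  have hGLAM := tGLAM.{u}
  have hT2 := tT2.{u}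
  have hNB := tNB.{u}
  have hKERC := tKERC.{u}
  have hAVOID := tAVOID.{u}
  have hNBGEN := tNBGEN.{u}
  first | exact Pool.Agent.W298.BK.Gen.dvg | (apply Pool.Agent.W298.BK.Gen.dvg <;> assumption)

theorem tDENSE : S_DENSE.{u} := by
  have hEV := tEV.{u}
  have hVAL := tVAL.{u}
  have hISO := tISO.{u}
  have hGLAM := tGLAM.{u}
  have hT2 := tT2.{u}
  have hNB := tNB.{u}
  have hKERC := tKERC.{u}
  have hAVOID := tAVOID.{u}
  have hNBGEN := tNBGEN.{u}
  have hDVG := tDVG.{u}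
  first | exact Pool.Agent.W371.BK.dense | (apply Pool.Agent.W371.BK.dense <;> assumption)

theorem tACT : S_ACT.{u} := by
  have hEV := tEV.{u}
  have hVAL := tVAL.{u}
  have hISO := tISO.{u}
  have hGLAM := tGLAM.{u}
  have hT2 := tT2.{u}
  have hNB := tNB.{u}
  have hKERC := tKERC.{u}
  have hAVOID := tAVOID.{u}
  have hNBGEN := tNBGEN.{u}
  have hDVG := tDVG.{u}
  have hDENSE := tDENSE.{u}
  first | exact Pool.Agent.W645.BK.main | (apply Pool.Agent.W645.BK.main <;> assumption)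

theorem tACTC : S_ACTC.{u} := by
  have hEV := tEV.{u}
  have hVAL := tVAL.{u}
  have hISO := tISO.{u}
  have hGLAM := tGLAM.{u}
  have hT2 := tT2.{u}
  have hNB := tNB.{u}
  have hKERC := tKERC.{u}
  have hAVOID := tAVOID.{u}
  have hNBGEN := tNBGEN.{u}
  have hDVG := tDVG.{u}
  have hDENSE := tDENSE.{u}
  have hACT := tACT.{u}
  first | exact Pool.Agent.W571.BK.Actc.main | (apply Pool.Agent.W571.BK.Actc.main <;> assumption)

theorem tFUNC : S_FUNC.{u} := by
  have hEV := tEV.{u}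
  have hVAL := tVAL.{u}
  have hISO := tISO.{u}
  have hGLAM := tGLAM.{u}
  have hT2 := tT2.{u}
  have hNB := tNB.{u}
  have hKERC := tKERC.{u}
  have hAVOID := tAVOID.{u}
  have hNBGEN := tNBGEN.{u}
  have hDVG := tDVG.{u}
  have hDENSE := tDENSE.{u}
  have hACT := tACT.{u}
  have hACTC := tACTC.{u}
  first | exact Pool.Agent.W103.BK.main | (apply Pool.Agent.W103.BK.main <;> assumption)

theorem tITER : S_ITER.{u} := by
  have hEV := tEV.{u}
  have hVAL := tVAL.{u}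
  have hISO := tISO.{u}
  have hGLAM := tGLAM.{u}
  have hT2 := tT2.{u}
  have hNB := tNB.{u}
  have hKERC := tKERC.{u}
  have hAVOID := tAVOID.{u}
  have hNBGEN := tNBGEN.{u}
  have hDVG := tDVG.{u}
  have hDENSE := tDENSE.{u}
  have hACT := tACT.{u}
  have hACTC := tACTC.{u}
  have hFUNC := tFUNC.{u}
  first | exact Pool.Agent.W407.BK.iter | (apply Pool.Agent.W407.BK.iter <;> assumption)

theorem tFIBC : S_FIBC.{u} := by
  have hEV := tEV.{u}
  have hVAL := tVAL.{u}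
  have hISO := tISO.{u}
  have hGLAM := tGLAM.{u}
  have hT2 := tT2.{u}
  have hNB := tNB.{u}
  have hKERC := tKERC.{u}
  have hAVOID := tAVOID.{u}
  have hNBGEN := tNBGEN.{u}
  have hDVG := tDVG.{u}
  have hDENSE := tDENSE.{u}
  have hACT := tACT.{u}
  have hACTC := tACTC.{u}
  have hFUNC := tFUNC.{u}
  have hITER := tITER.{u}
  first | exact Pool.Agent.W407.BK.fibc | (apply Pool.Agent.W407.BK.fibc <;> assumption)

theorem tNPOL : S_NPOL.{u} := by
  have hEV := tEV.{u}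
  have hVAL := tVAL.{u}
  have hISO := tISO.{u}
  have hGLAM := tGLAM.{u}
  have hT2 := tT2.{u}
  have hNB := tNB.{u}
  have hKERC := tKERC.{u}
  have hAVOID := tAVOID.{u}
  have hNBGEN := tNBGEN.{u}
  have hDVG := tDVG.{u}
  have hDENSE := tDENSE.{u}
  have hACT := tACT.{u}
  have hACTC := tACTC.{u}
  have hFUNC := tFUNC.{u}
  have hITER := tITER.{u}
  have hFIBC := tFIBC.{u}
  first | exact Pool.Agent.W451.BK.main | (apply Pool.Agent.W451.BK.main <;> assumption)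

theorem tGEN : S_GEN.{u} := by
  have hEV := tEV.{u}
  have hVAL := tVAL.{u}
  have hISO := tISO.{u}
  have hGLAM := tGLAM.{u}
  have hT2 := tT2.{u}
  have hNB := tNB.{u}
  have hKERC := tKERC.{u}
  have hAVOID := tAVOID.{u}
  have hNBGEN := tNBGEN.{u}
  have hDVG := tDVG.{u}
  have hDENSE := tDENSE.{u}
  have hACT := tACT.{u}
  have hACTC := tACTC.{u}
  have hFUNC := tFUNC.{u}
  have hITER := tITER.{u}
  have hFIBC := tFIBC.{u}
  have hNPOL := tNPOL.{u}
  first | exact Pool.Agent.W298.BK.Gen.gen | (apply Pool.Agent.W298.BK.Gen.gen <;> assumption)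

theorem tNWI : S_NWI.{u} := by
  have hEV := tEV.{u}
  have hVAL := tVAL.{u}
  have hISO := tISO.{u}
  have hGLAM := tGLAM.{u}
  have hT2 := tT2.{u}
  have hNB := tNB.{u}
  have hKERC := tKERC.{u}
  have hAVOID := tAVOID.{u}
  have hNBGEN := tNBGEN.{u}
  have hDVG := tDVG.{u}
  have hDENSE := tDENSE.{u}
  have hACT := tACT.{u}
  have hACTC := tACTC.{u}
  have hFUNC := tFUNC.{u}
  have hITER := tITER.{u}
  have hFIBC := tFIBC.{u}
  have hNPOL := tNPOL.{u}
  have hGEN := tGEN.{u}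
  first | exact Pool.Agent.W564.BK.nwi | (apply Pool.Agent.W564.BK.nwi <;> assumption)

theorem tNWROOT : S_NWROOT.{u} := by
  have hEV := tEV.{u}
  have hVAL := tVAL.{u}
  have hISO := tISO.{u}
  have hGLAM := tGLAM.{u}
  have hT2 := tT2.{u}
  have hNB := tNB.{u}
  have hKERC := tKERC.{u}
  have hAVOID := tAVOID.{u}
  have hNBGEN := tNBGEN.{u}
  have hDVG := tDVG.{u}
  have hDENSE := tDENSE.{u}
  have hACT := tACT.{u}
  have hACTC := tACTC.{u}
  have hFUNC := tFUNC.{u}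
  have hITER := tITER.{u}
  have hFIBC := tFIBC.{u}
  have hNPOL := tNPOL.{u}
  have hGEN := tGEN.{u}
  have hNWI := tNWI.{u}
  first | exact Pool.Agent.W74.BK.NWROOT.main | (apply Pool.Agent.W74.BK.NWROOT.main <;> assumption)

theorem tSUMDIR : S_SUMDIR.{u} := by
  have hEV := tEV.{u}
  have hVAL := tVAL.{u}
  have hISO := tISO.{u}
  have hGLAM := tGLAM.{u}
  have hT2 := tT2.{u}
  have hNB := tNB.{u}
  have hKERC := tKERC.{u}
  have hAVOID := tAVOID.{u}
  have hNBGEN := tNBGEN.{u}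
  have hDVG := tDVG.{u}
  have hDENSE := tDENSE.{u}
  have hACT := tACT.{u}
  have hACTC := tACTC.{u}
  have hFUNC := tFUNC.{u}
  have hITER := tITER.{u}
  have hFIBC := tFIBC.{u}
  have hNPOL := tNPOL.{u}
  have hGEN := tGEN.{u}
  have hNWI := tNWI.{u}
  have hNWROOT := tNWROOT.{u}
  first | exact Pool.Agent.W721.BK.Center.sumdir | (apply Pool.Agent.W721.BK.Center.sumdir <;> assumption)

theorem tCENTER : S_CENTER.{u} := by
  have hEV := tEV.{u}
  have hVAL := tVAL.{u}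
  have hISO := tISO.{u}
  have hGLAM := tGLAM.{u}
  have hT2 := tT2.{u}
  have hNB := tNB.{u}
  have hKERC := tKERC.{u}
  have hAVOID := tAVOID.{u}
  have hNBGEN := tNBGEN.{u}
  have hDVG := tDVG.{u}
  have hDENSE := tDENSE.{u}
  have hACT := tACT.{u}
  have hACTC := tACTC.{u}
  have hFUNC := tFUNC.{u}
  have hITER := tITER.{u}
  have hFIBC := tFIBC.{u}
  have hNPOL := tNPOL.{u}
  have hGEN := tGEN.{u}
  have hNWI := tNWI.{u}
  have hNWROOT := tNWROOT.{u}
  have hSUMDIR := tSUMDIR.{u}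
  first | exact Pool.Agent.W721.BK.Center.center | (apply Pool.Agent.W721.BK.Center.center <;> assumption)

theorem tS2 : S_S2.{u} := by
  have hEV := tEV.{u}
  have hVAL := tVAL.{u}
  have hISO := tISO.{u}
  have hGLAM := tGLAM.{u}
  have hT2 := tT2.{u}
  have hNB := tNB.{u}
  have hKERC := tKERC.{u}
  have hAVOID := tAVOID.{u}
  have hNBGEN := tNBGEN.{u}
  have hDVG := tDVG.{u}
  have hDENSE := tDENSE.{u}
  have hACT := tACT.{u}
  have hACTC := tACTC.{u}
  have hFUNC := tFUNC.{u}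
  have hITER := tITER.{u}
  have hFIBC := tFIBC.{u}
  have hNPOL := tNPOL.{u}
  have hGEN := tGEN.{u}
  have hNWI := tNWI.{u}
  have hNWROOT := tNWROOT.{u}
  have hSUMDIR := tSUMDIR.{u}
  have hCENTER := tCENTER.{u}
  first | exact Pool.Agent.W410.BK.main | (apply Pool.Agent.W410.BK.main <;> assumption)

theorem tS1 : S_S1.{u} := by
  have hEV := tEV.{u}
  have hVAL := tVAL.{u}
  have hISO := tISO.{u}
  have hGLAM := tGLAM.{u}
  have hT2 := tT2.{u}
  have hNB := tNB.{u}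
  have hKERC := tKERC.{u}
  have hAVOID := tAVOID.{u}
  have hNBGEN := tNBGEN.{u}
  have hDVG := tDVG.{u}
  have hDENSE := tDENSE.{u}
  have hACT := tACT.{u}
  have hACTC := tACTC.{u}
  have hFUNC := tFUNC.{u}
  have hITER := tITER.{u}
  have hFIBC := tFIBC.{u}
  have hNPOL := tNPOL.{u}
  have hGEN := tGEN.{u}
  have hNWI := tNWI.{u}
  have hNWROOT := tNWROOT.{u}
  have hSUMDIR := tSUMDIR.{u}
  have hCENTER := tCENTER.{u}
  have hS2 := tS2.{u}
  first | exact Pool.Agent.W101.BK.main | (apply Pool.Agent.W101.BK.main <;> assumption)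

theorem tCOMB : S_COMB.{u} := by
  have hEV := tEV.{u}
  have hVAL := tVAL.{u}
  have hISO := tISO.{u}
  have hGLAM := tGLAM.{u}
  have hT2 := tT2.{u}
  have hNB := tNB.{u}
  have hKERC := tKERC.{u}
  have hAVOID := tAVOID.{u}
  have hNBGEN := tNBGEN.{u}
  have hDVG := tDVG.{u}
  have hDENSE := tDENSE.{u}
  have hACT := tACT.{u}
  have hACTC := tACTC.{u}
  have hFUNC := tFUNC.{u}
  have hITER := tITER.{u}
  have hFIBC := tFIBC.{u}
  have hNPOL := tNPOL.{u}
  have hGEN := tGEN.{u}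
  have hNWI := tNWI.{u}
  have hNWROOT := tNWROOT.{u}
  have hSUMDIR := tSUMDIR.{u}
  have hCENTER := tCENTER.{u}
  have hS2 := tS2.{u}
  have hS1 := tS1.{u}
  first | exact Pool.Agent.W140.BK.comb | (apply Pool.Agent.W140.BK.comb <;> assumption)

theorem tC : S_C.{u} := by
  have hEV := tEV.{u}
  have hVAL := tVAL.{u}
  have hISO := tISO.{u}
  have hGLAM := tGLAM.{u}
  have hT2 := tT2.{u}
  have hNB := tNB.{u}
  have hKERC := tKERC.{u}
  have hAVOID := tAVOID.{u}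
  have hNBGEN := tNBGEN.{u}
  have hDVG := tDVG.{u}
  have hDENSE := tDENSE.{u}
  have hACT := tACT.{u}
  have hACTC := tACTC.{u}
  have hFUNC := tFUNC.{u}
  have hITER := tITER.{u}
  have hFIBC := tFIBC.{u}
  have hNPOL := tNPOL.{u}
  have hGEN := tGEN.{u}
  have hNWI := tNWI.{u}
  have hNWROOT := tNWROOT.{u}
  have hSUMDIR := tSUMDIR.{u}
  have hCENTER := tCENTER.{u}
  have hS2 := tS2.{u}
  have hS1 := tS1.{u}
  have hCOMB := tCOMB.{u}
  first | exact Pool.Agent.W597.BK.main | (apply Pool.Agent.W597.BK.main <;> assumption)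

theorem tLC : S_LC.{u} := by
  have hEV := tEV.{u}
  have hVAL := tVAL.{u}
  have hISO := tISO.{u}
  have hGLAM := tGLAM.{u}
  have hT2 := tT2.{u}
  have hNB := tNB.{u}
  have hKERC := tKERC.{u}
  have hAVOID := tAVOID.{u}
  have hNBGEN := tNBGEN.{u}
  have hDVG := tDVG.{u}
  have hDENSE := tDENSE.{u}
  have hACT := tACT.{u}
  have hACTC := tACTC.{u}
  have hFUNC := tFUNC.{u}
  have hITER := tITER.{u}
  have hFIBC := tFIBC.{u}
  have hNPOL := tNPOL.{u}
  have hGEN := tGEN.{u}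
  have hNWI := tNWI.{u}
  have hNWROOT := tNWROOT.{u}
  have hSUMDIR := tSUMDIR.{u}
  have hCENTER := tCENTER.{u}
  have hS2 := tS2.{u}
  have hS1 := tS1.{u}
  have hCOMB := tCOMB.{u}
  have hC := tC.{u}
  first | exact Pool.Agent.W193.BK.LC.lc | (apply Pool.Agent.W193.BK.LC.lc <;> assumption)

theorem tNC : S_NC.{u} := by
  have hEV := tEV.{u}
  have hVAL := tVAL.{u}
  have hISO := tISO.{u}
  have hGLAM := tGLAM.{u}
  have hT2 := tT2.{u}
  have hNB := tNB.{u}
  have hKERC := tKERC.{u}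
  have hAVOID := tAVOID.{u}
  have hNBGEN := tNBGEN.{u}
  have hDVG := tDVG.{u}
  have hDENSE := tDENSE.{u}
  have hACT := tACT.{u}
  have hACTC := tACTC.{u}
  have hFUNC := tFUNC.{u}
  have hITER := tITER.{u}
  have hFIBC := tFIBC.{u}
  have hNPOL := tNPOL.{u}
  have hGEN := tGEN.{u}
  have hNWI := tNWI.{u}
  have hNWROOT := tNWROOT.{u}
  have hSUMDIR := tSUMDIR.{u}
  have hCENTER := tCENTER.{u}
  have hS2 := tS2.{u}
  have hS1 := tS1.{u}
  have hCOMB := tCOMB.{u}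
  have hC := tC.{u}
  have hLC := tLC.{u}
  first | exact Pool.Agent.W193.BK.LC.nc | (apply Pool.Agent.W193.BK.LC.nc <;> assumption)

theorem tLDU : S_LDU.{u} := by
  have hEV := tEV.{u}
  have hVAL := tVAL.{u}
  have hISO := tISO.{u}
  have hGLAM := tGLAM.{u}
  have hT2 := tT2.{u}
  have hNB := tNB.{u}
  have hKERC := tKERC.{u}
  have hAVOID := tAVOID.{u}
  have hNBGEN := tNBGEN.{u}
  have hDVG := tDVG.{u}
  have hDENSE := tDENSE.{u}
  have hACT := tACT.{u}
  have hACTC := tACTC.{u}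
  have hFUNC := tFUNC.{u}
  have hITER := tITER.{u}
  have hFIBC := tFIBC.{u}
  have hNPOL := tNPOL.{u}
  have hGEN := tGEN.{u}
  have hNWI := tNWI.{u}
  have hNWROOT := tNWROOT.{u}
  have hSUMDIR := tSUMDIR.{u}
  have hCENTER := tCENTER.{u}
  have hS2 := tS2.{u}
  have hS1 := tS1.{u}
  have hCOMB := tCOMB.{u}
  have hC := tC.{u}
  have hLC := tLC.{u}
  have hNC := tNC.{u}
  first | exact Pool.Agent.W73.BK.ldu | (apply Pool.Agent.W73.BK.ldu <;> assumption)

theorem tLDEX : S_LDEX.{u} := by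
  have hEV := tEV.{u}
  have hVAL := tVAL.{u}
  have hISO := tISO.{u}
  have hGLAM := tGLAM.{u}
  have hT2 := tT2.{u}
  have hNB := tNB.{u}
  have hKERC := tKERC.{u}
  have hAVOID := tAVOID.{u}
  have hNBGEN := tNBGEN.{u}
  have hDVG := tDVG.{u}
  have hDENSE := tDENSE.{u}
  have hACT := tACT.{u}
  have hACTC := tACTC.{u}
  have hFUNC := tFUNC.{u}
  have hITER := tITER.{u}
  have hFIBC := tFIBC.{u}
  have hNPOL := tNPOL.{u}
  have hGEN := tGEN.{u}
  have hNWI := tNWI.{u}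
  have hNWROOT := tNWROOT.{u}
  have hSUMDIR := tSUMDIR.{u}
  have hCENTER := tCENTER.{u}
  have hS2 := tS2.{u}
  have hS1 := tS1.{u}
  have hCOMB := tCOMB.{u}
  have hC := tC.{u}
  have hLC := tLC.{u}
  have hNC := tNC.{u}
  have hLDU := tLDU.{u}
  first | exact Pool.Agent.W73.BK.ldex | (apply Pool.Agent.W73.BK.ldex <;> assumption)

theorem tCHAIN : S_CHAIN.{u} := by
  have hEV := tEV.{u}
  have hVAL := tVAL.{u}
  have hISO := tISO.{u}
  have hGLAM := tGLAM.{u}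
  have hT2 := tT2.{u}
  have hNB := tNB.{u}
  have hKERC := tKERC.{u}
  have hAVOID := tAVOID.{u}
  have hNBGEN := tNBGEN.{u}
  have hDVG := tDVG.{u}
  have hDENSE := tDENSE.{u}
  have hACT := tACT.{u}
  have hACTC := tACTC.{u}
  have hFUNC := tFUNC.{u}
  have hITER := tITER.{u}
  have hFIBC := tFIBC.{u}
  have hNPOL := tNPOL.{u}
  have hGEN := tGEN.{u}
  have hNWI := tNWI.{u}
  have hNWROOT := tNWROOT.{u}
  have hSUMDIR := tSUMDIR.{u}
  have hCENTER := tCENTER.{u}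
  have hS2 := tS2.{u}
  have hS1 := tS1.{u}
  have hCOMB := tCOMB.{u}
  have hC := tC.{u}
  have hLC := tLC.{u}
  have hNC := tNC.{u}
  have hLDU := tLDU.{u}
  have hLDEX := tLDEX.{u}
  first | exact Pool.Agent.W138.BK.chain | (apply Pool.Agent.W138.BK.chain <;> assumption)

theorem tT1 : S_T1.{u} := by
  have hEV := tEV.{u}
  have hVAL := tVAL.{u}
  have hISO := tISO.{u}
  have hGLAM := tGLAM.{u}
  have hT2 := tT2.{u}
  have hNB := tNB.{u}
  have hKERC := tKERC.{u}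
  have hAVOID := tAVOID.{u}
  have hNBGEN := tNBGEN.{u}
  have hDVG := tDVG.{u}
  have hDENSE := tDENSE.{u}
  have hACT := tACT.{u}
  have hACTC := tACTC.{u}
  have hFUNC := tFUNC.{u}
  have hITER := tITER.{u}
  have hFIBC := tFIBC.{u}
  have hNPOL := tNPOL.{u}
  have hGEN := tGEN.{u}
  have hNWI := tNWI.{u}
  have hNWROOT := tNWROOT.{u}
  have hSUMDIR := tSUMDIR.{u}
  have hCENTER := tCENTER.{u}
  have hS2 := tS2.{u}
  have hS1 := tS1.{u}
  have hCOMB := tCOMB.{u}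
  have hC := tC.{u}
  have hLC := tLC.{u}
  have hNC := tNC.{u}
  have hLDU := tLDU.{u}
  have hLDEX := tLDEX.{u}
  have hCHAIN := tCHAIN.{u}
  first | exact Pool.Agent.W55.BK.T1.main | (apply Pool.Agent.W55.BK.T1.main <;> assumption)

theorem tTYPE2 : S_TYPE2.{u} := by
  have hEV := tEV.{u}
  have hVAL := tVAL.{u}
  have hISO := tISO.{u}
  have hGLAM := tGLAM.{u}
  have hT2 := tT2.{u}
  have hNB := tNB.{u}
  have hKERC := tKERC.{u}
  have hAVOID := tAVOID.{u}
  have hNBGEN := tNBGEN.{u}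
  have hDVG := tDVG.{u}
  have hDENSE := tDENSE.{u}
  have hACT := tACT.{u}
  have hACTC := tACTC.{u}
  have hFUNC := tFUNC.{u}
  have hITER := tITER.{u}
  have hFIBC := tFIBC.{u}
  have hNPOL := tNPOL.{u}
  have hGEN := tGEN.{u}
  have hNWI := tNWI.{u}
  have hNWROOT := tNWROOT.{u}
  have hSUMDIR := tSUMDIR.{u}
  have hCENTER := tCENTER.{u}
  have hS2 := tS2.{u}
  have hS1 := tS1.{u}
  have hCOMB := tCOMB.{u}
  have hC := tC.{u}
  have hLC := tLC.{u}
  have hNC := tNC.{u}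
  have hLDU := tLDU.{u}
  have hLDEX := tLDEX.{u}
  have hCHAIN := tCHAIN.{u}
  have hT1 := tT1.{u}
  first | exact Pool.Agent.W352.BKT2.main | (apply Pool.Agent.W352.BKT2.main <;> assumption)

theorem tINVX : S_INVX.{u} := by
  have hEV := tEV.{u}
  have hVAL := tVAL.{u}
  have hISO := tISO.{u}
  have hGLAM := tGLAM.{u}
  have hT2 := tT2.{u}
  have hNB := tNB.{u}
  have hKERC := tKERC.{u}
  have hAVOID := tAVOID.{u}
  have hNBGEN := tNBGEN.{u}
  have hDVG := tDVG.{u}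
  have hDENSE := tDENSE.{u}
  have hACT := tACT.{u}
  have hACTC := tACTC.{u}
  have hFUNC := tFUNC.{u}
  have hITER := tITER.{u}
  have hFIBC := tFIBC.{u}
  have hNPOL := tNPOL.{u}
  have hGEN := tGEN.{u}
  have hNWI := tNWI.{u}
  have hNWROOT := tNWROOT.{u}
  have hSUMDIR := tSUMDIR.{u}
  have hCENTER := tCENTER.{u}
  have hS2 := tS2.{u}
  have hS1 := tS1.{u}
  have hCOMB := tCOMB.{u}
  have hC := tC.{u}
  have hLC := tLC.{u}
  have hNC := tNC.{u}
  have hLDU := tLDU.{u}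
  have hLDEX := tLDEX.{u}
  have hCHAIN := tCHAIN.{u}
  have hT1 := tT1.{u}
  have hTYPE2 := tTYPE2.{u}
  first | exact Pool.Agent.W721.BK.Invx.main | (apply Pool.Agent.W721.BK.Invx.main <;> assumption)

theorem tGREEN : S_GREEN.{u} := by
  have hEV := tEV.{u}
  have hVAL := tVAL.{u}
  have hISO := tISO.{u}
  have hGLAM := tGLAM.{u}
  have hT2 := tT2.{u}
  have hNB := tNB.{u}
  have hKERC := tKERC.{u}
  have hAVOID := tAVOID.{u}
  have hNBGEN := tNBGEN.{u}
  have hDVG := tDVG.{u}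
  have hDENSE := tDENSE.{u}
  have hACT := tACT.{u}
  have hACTC := tACTC.{u}
  have hFUNC := tFUNC.{u}
  have hITER := tITER.{u}
  have hFIBC := tFIBC.{u}
  have hNPOL := tNPOL.{u}
  have hGEN := tGEN.{u}
  have hNWI := tNWI.{u}
  have hNWROOT := tNWROOT.{u}
  have hSUMDIR := tSUMDIR.{u}
  have hCENTER := tCENTER.{u}
  have hS2 := tS2.{u}
  have hS1 := tS1.{u}
  have hCOMB := tCOMB.{u}
  have hC := tC.{u}
  have hLC := tLC.{u}
  have hNC := tNC.{u}
  have hLDU := tLDU.{u}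
  have hLDEX := tLDEX.{u}
  have hCHAIN := tCHAIN.{u}
  have hT1 := tT1.{u}
  have hTYPE2 := tTYPE2.{u}
  have hINVX := tINVX.{u}
  first | exact Pool.Agent.W397.BK.green | (apply Pool.Agent.W397.BK.green <;> assumption)

theorem tPATH0 : S_PATH0.{u} := by
  have hEV := tEV.{u}
  have hVAL := tVAL.{u}
  have hISO := tISO.{u}
  have hGLAM := tGLAM.{u}
  have hT2 := tT2.{u}
  have hNB := tNB.{u}
  have hKERC := tKERC.{u}
  have hAVOID := tAVOID.{u}
  have hNBGEN := tNBGEN.{u}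
  have hDVG := tDVG.{u}
  have hDENSE := tDENSE.{u}
  have hACT := tACT.{u}
  have hACTC := tACTC.{u}
  have hFUNC := tFUNC.{u}
  have hITER := tITER.{u}
  have hFIBC := tFIBC.{u}
  have hNPOL := tNPOL.{u}
  have hGEN := tGEN.{u}
  have hNWI := tNWI.{u}
  have hNWROOT := tNWROOT.{u}
  have hSUMDIR := tSUMDIR.{u}
  have hCENTER := tCENTER.{u}
  have hS2 := tS2.{u}
  have hS1 := tS1.{u}
  have hCOMB := tCOMB.{u}
  have hC := tC.{u}
  have hLC := tLC.{u}
  have hNC := tNC.{u}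
  have hLDU := tLDU.{u}
  have hLDEX := tLDEX.{u}
  have hCHAIN := tCHAIN.{u}
  have hT1 := tT1.{u}
  have hTYPE2 := tTYPE2.{u}
  have hINVX := tINVX.{u}
  have hGREEN := tGREEN.{u}
  first | exact Pool.Agent.W298.BK.Path.path0 | (apply Pool.Agent.W298.BK.Path.path0 <;> assumption)

theorem tPATHI : S_PATHI.{u} := by
  have hEV := tEV.{u}
  have hVAL := tVAL.{u}
  have hISO := tISO.{u}
  have hGLAM := tGLAM.{u}
  have hT2 := tT2.{u}
  have hNB := tNB.{u}
  have hKERC := tKERC.{u}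
  have hAVOID := tAVOID.{u}
  have hNBGEN := tNBGEN.{u}
  have hDVG := tDVG.{u}
  have hDENSE := tDENSE.{u}
  have hACT := tACT.{u}
  have hACTC := tACTC.{u}
  have hFUNC := tFUNC.{u}
  have hITER := tITER.{u}
  have hFIBC := tFIBC.{u}
  have hNPOL := tNPOL.{u}
  have hGEN := tGEN.{u}
  have hNWI := tNWI.{u}
  have hNWROOT := tNWROOT.{u}
  have hSUMDIR := tSUMDIR.{u}
  have hCENTER := tCENTER.{u}
  have hS2 := tS2.{u}
  have hS1 := tS1.{u}
  have hCOMB := tCOMB.{u}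
  have hC := tC.{u}
  have hLC := tLC.{u}
  have hNC := tNC.{u}
  have hLDU := tLDU.{u}
  have hLDEX := tLDEX.{u}
  have hCHAIN := tCHAIN.{u}
  have hT1 := tT1.{u}
  have hTYPE2 := tTYPE2.{u}
  have hINVX := tINVX.{u}
  have hGREEN := tGREEN.{u}
  have hPATH0 := tPATH0.{u}
  first | exact Pool.Agent.W298.BK.Path.pathi | (apply Pool.Agent.W298.BK.Path.pathi <;> assumption)

theorem tKGP : S_KGP.{u} := by
  have hEV := tEV.{u}
  have hVAL := tVAL.{u}
  have hISO := tISO.{u}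
  have hGLAM := tGLAM.{u}
  have hT2 := tT2.{u}
  have hNB := tNB.{u}
  have hKERC := tKERC.{u}
  have hAVOID := tAVOID.{u}
  have hNBGEN := tNBGEN.{u}
  have hDVG := tDVG.{u}
  have hDENSE := tDENSE.{u}
  have hACT := tACT.{u}
  have hACTC := tACTC.{u}
  have hFUNC := tFUNC.{u}
  have hITER := tITER.{u}
  have hFIBC := tFIBC.{u}
  have hNPOL := tNPOL.{u}
  have hGEN := tGEN.{u}
  have hNWI := tNWI.{u}
  have hNWROOT := tNWROOT.{u}
  have hSUMDIR := tSUMDIR.{u}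
  have hCENTER := tCENTER.{u}
  have hS2 := tS2.{u}
  have hS1 := tS1.{u}
  have hCOMB := tCOMB.{u}
  have hC := tC.{u}
  have hLC := tLC.{u}
  have hNC := tNC.{u}
  have hLDU := tLDU.{u}
  have hLDEX := tLDEX.{u}
  have hCHAIN := tCHAIN.{u}
  have hT1 := tT1.{u}
  have hTYPE2 := tTYPE2.{u}
  have hINVX := tINVX.{u}
  have hGREEN := tGREEN.{u}
  have hPATH0 := tPATH0.{u}
  have hPATHI := tPATHI.{u}
  first | exact Pool.Agent.W174.BK.Ker.kgp | (apply Pool.Agent.W174.BK.Ker.kgp <;> assumption)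

theorem tSUMN : S_SUMN.{u} := by
  have hEV := tEV.{u}
  have hVAL := tVAL.{u}
  have hISO := tISO.{u}
  have hGLAM := tGLAM.{u}
  have hT2 := tT2.{u}
  have hNB := tNB.{u}
  have hKERC := tKERC.{u}
  have hAVOID := tAVOID.{u}
  have hNBGEN := tNBGEN.{u}
  have hDVG := tDVG.{u}
  have hDENSE := tDENSE.{u}
  have hACT := tACT.{u}
  have hACTC := tACTC.{u}
  have hFUNC := tFUNC.{u}
  have hITER := tITER.{u}
  have hFIBC := tFIBC.{u}
  have hNPOL := tNPOL.{u}
  have hGEN := tGEN.{u}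
  have hNWI := tNWI.{u}
  have hNWROOT := tNWROOT.{u}
  have hSUMDIR := tSUMDIR.{u}
  have hCENTER := tCENTER.{u}
  have hS2 := tS2.{u}
  have hS1 := tS1.{u}
  have hCOMB := tCOMB.{u}
  have hC := tC.{u}
  have hLC := tLC.{u}
  have hNC := tNC.{u}
  have hLDU := tLDU.{u}
  have hLDEX := tLDEX.{u}
  have hCHAIN := tCHAIN.{u}
  have hT1 := tT1.{u}
  have hTYPE2 := tTYPE2.{u}
  have hINVX := tINVX.{u}
  have hGREEN := tGREEN.{u}
  have hPATH0 := tPATH0.{u}
  have hPATHI := tPATHI.{u}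
  have hKGP := tKGP.{u}
  first | exact Pool.Agent.W571.BK.Sumn.main | (apply Pool.Agent.W571.BK.Sumn.main <;> assumption)

theorem tSUMK : S_SUMK.{u} := by
  have hEV := tEV.{u}
  have hVAL := tVAL.{u}
  have hISO := tISO.{u}
  have hGLAM := tGLAM.{u}
  have hT2 := tT2.{u}
  have hNB := tNB.{u}
  have hKERC := tKERC.{u}
  have hAVOID := tAVOID.{u}
  have hNBGEN := tNBGEN.{u}
  have hDVG := tDVG.{u}
  have hDENSE := tDENSE.{u}
  have hACT := tACT.{u}
  have hACTC := tACTC.{u}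
  have hFUNC := tFUNC.{u}
  have hITER := tITER.{u}
  have hFIBC := tFIBC.{u}
  have hNPOL := tNPOL.{u}
  have hGEN := tGEN.{u}
  have hNWI := tNWI.{u}
  have hNWROOT := tNWROOT.{u}
  have hSUMDIR := tSUMDIR.{u}
  have hCENTER := tCENTER.{u}
  have hS2 := tS2.{u}
  have hS1 := tS1.{u}
  have hCOMB := tCOMB.{u}
  have hC := tC.{u}
  have hLC := tLC.{u}
  have hNC := tNC.{u}
  have hLDU := tLDU.{u}
  have hLDEX := tLDEX.{u}
  have hCHAIN := tCHAIN.{u}
  have hT1 := tT1.{u}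
  have hTYPE2 := tTYPE2.{u}
  have hINVX := tINVX.{u}
  have hGREEN := tGREEN.{u}
  have hPATH0 := tPATH0.{u}
  have hPATHI := tPATHI.{u}
  have hKGP := tKGP.{u}
  have hSUMN := tSUMN.{u}
  first | exact Pool.Agent.W174.BK.Ker.sumk | (apply Pool.Agent.W174.BK.Ker.sumk <;> assumption)

theorem tKER : S_KER.{u} := by
  have hEV := tEV.{u}
  have hVAL := tVAL.{u}
  have hISO := tISO.{u}
  have hGLAM := tGLAM.{u}
  have hT2 := tT2.{u}
  have hNB := tNB.{u}
  have hKERC := tKERC.{u}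
  have hAVOID := tAVOID.{u}
  have hNBGEN := tNBGEN.{u}
  have hDVG := tDVG.{u}
  have hDENSE := tDENSE.{u}
  have hACT := tACT.{u}
  have hACTC := tACTC.{u}
  have hFUNC := tFUNC.{u}
  have hITER := tITER.{u}
  have hFIBC := tFIBC.{u}
  have hNPOL := tNPOL.{u}
  have hGEN := tGEN.{u}
  have hNWI := tNWI.{u}
  have hNWROOT := tNWROOT.{u}
  have hSUMDIR := tSUMDIR.{u}
  have hCENTER := tCENTER.{u}
  have hS2 := tS2.{u}
  have hS1 := tS1.{u}
  have hCOMB := tCOMB.{u}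
  have hC := tC.{u}
  have hLC := tLC.{u}
  have hNC := tNC.{u}
  have hLDU := tLDU.{u}
  have hLDEX := tLDEX.{u}
  have hCHAIN := tCHAIN.{u}
  have hT1 := tT1.{u}
  have hTYPE2 := tTYPE2.{u}
  have hINVX := tINVX.{u}
  have hGREEN := tGREEN.{u}
  have hPATH0 := tPATH0.{u}
  have hPATHI := tPATHI.{u}
  have hKGP := tKGP.{u}
  have hSUMN := tSUMN.{u}
  have hSUMK := tSUMK.{u}
  first | exact Pool.Agent.W174.BK.Ker.ker | (apply Pool.Agent.W174.BK.Ker.ker <;> assumption)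

theorem tINVM : S_INVM.{u} := by
  have hEV := tEV.{u}
  have hVAL := tVAL.{u}
  have hISO := tISO.{u}
  have hGLAM := tGLAM.{u}
  have hT2 := tT2.{u}
  have hNB := tNB.{u}
  have hKERC := tKERC.{u}
  have hAVOID := tAVOID.{u}
  have hNBGEN := tNBGEN.{u}
  have hDVG := tDVG.{u}
  have hDENSE := tDENSE.{u}
  have hACT := tACT.{u}
  have hACTC := tACTC.{u}
  have hFUNC := tFUNC.{u}
  have hITER := tITER.{u}
  have hFIBC := tFIBC.{u}
  have hNPOL := tNPOL.{u}
  have hGEN := tGEN.{u}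
  have hNWI := tNWI.{u}
  have hNWROOT := tNWROOT.{u}
  have hSUMDIR := tSUMDIR.{u}
  have hCENTER := tCENTER.{u}
  have hS2 := tS2.{u}
  have hS1 := tS1.{u}
  have hCOMB := tCOMB.{u}
  have hC := tC.{u}
  have hLC := tLC.{u}
  have hNC := tNC.{u}
  have hLDU := tLDU.{u}
  have hLDEX := tLDEX.{u}
  have hCHAIN := tCHAIN.{u}
  have hT1 := tT1.{u}
  have hTYPE2 := tTYPE2.{u}
  have hINVX := tINVX.{u}
  have hGREEN := tGREEN.{u}
  have hPATH0 := tPATH0.{u}
  have hPATHI := tPATHI.{u}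
  have hKGP := tKGP.{u}
  have hSUMN := tSUMN.{u}
  have hSUMK := tSUMK.{u}
  have hKER := tKER.{u}
  first | exact Pool.Agent.W298.BK.Invm.main | (apply Pool.Agent.W298.BK.Invm.main <;> assumption)

theorem tMIXK : S_MIXK.{u} := by
  have hEV := tEV.{u}
  have hVAL := tVAL.{u}
  have hISO := tISO.{u}
  have hGLAM := tGLAM.{u}
  have hT2 := tT2.{u}
  have hNB := tNB.{u}
  have hKERC := tKERC.{u}
  have hAVOID := tAVOID.{u}
  have hNBGEN := tNBGEN.{u}
  have hDVG := tDVG.{u}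
  have hDENSE := tDENSE.{u}
  have hACT := tACT.{u}
  have hACTC := tACTC.{u}
  have hFUNC := tFUNC.{u}
  have hITER := tITER.{u}
  have hFIBC := tFIBC.{u}
  have hNPOL := tNPOL.{u}
  have hGEN := tGEN.{u}
  have hNWI := tNWI.{u}
  have hNWROOT := tNWROOT.{u}
  have hSUMDIR := tSUMDIR.{u}
  have hCENTER := tCENTER.{u}
  have hS2 := tS2.{u}
  have hS1 := tS1.{u}
  have hCOMB := tCOMB.{u}
  have hC := tC.{u}
  have hLC := tLC.{u}
  have hNC := tNC.{u}
  have hLDU := tLDU.{u}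
  have hLDEX := tLDEX.{u}
  have hCHAIN := tCHAIN.{u}
  have hT1 := tT1.{u}
  have hTYPE2 := tTYPE2.{u}
  have hINVX := tINVX.{u}
  have hGREEN := tGREEN.{u}
  have hPATH0 := tPATH0.{u}
  have hPATHI := tPATHI.{u}
  have hKGP := tKGP.{u}
  have hSUMN := tSUMN.{u}
  have hSUMK := tSUMK.{u}
  have hKER := tKER.{u}
  have hINVM := tINVM.{u}
  first | exact Pool.Agent.W465.BK.MixK.main | (apply Pool.Agent.W465.BK.MixK.main <;> assumption)

theorem tGOOD : S_GOOD.{u} := by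
  have hEV := tEV.{u}
  have hVAL := tVAL.{u}
  have hISO := tISO.{u}
  have hGLAM := tGLAM.{u}
  have hT2 := tT2.{u}
  have hNB := tNB.{u}
  have hKERC := tKERC.{u}
  have hAVOID := tAVOID.{u}
  have hNBGEN := tNBGEN.{u}
  have hDVG := tDVG.{u}
  have hDENSE := tDENSE.{u}
  have hACT := tACT.{u}
  have hACTC := tACTC.{u}
  have hFUNC := tFUNC.{u}
  have hITER := tITER.{u}
  have hFIBC := tFIBC.{u}
  have hNPOL := tNPOL.{u}
  have hGEN := tGEN.{u}
  have hNWI := tNWI.{u}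
  have hNWROOT := tNWROOT.{u}
  have hSUMDIR := tSUMDIR.{u}
  have hCENTER := tCENTER.{u}
  have hS2 := tS2.{u}
  have hS1 := tS1.{u}
  have hCOMB := tCOMB.{u}
  have hC := tC.{u}
  have hLC := tLC.{u}
  have hNC := tNC.{u}
  have hLDU := tLDU.{u}
  have hLDEX := tLDEX.{u}
  have hCHAIN := tCHAIN.{u}
  have hT1 := tT1.{u}
  have hTYPE2 := tTYPE2.{u}
  have hINVX := tINVX.{u}
  have hGREEN := tGREEN.{u}
  have hPATH0 := tPATH0.{u}
  have hPATHI := tPATHI.{u}
  have hKGP := tKGP.{u}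
  have hSUMN := tSUMN.{u}
  have hSUMK := tSUMK.{u}
  have hKER := tKER.{u}
  have hINVM := tINVM.{u}
  have hMIXK := tMIXK.{u}
  first | exact Pool.Agent.W298.BK.Noat.good' | (apply Pool.Agent.W298.BK.Noat.good' <;> assumption)

theorem tTL : S_TL.{u} := by
  have hEV := tEV.{u}
  have hVAL := tVAL.{u}
  have hISO := tISO.{u}
  have hGLAM := tGLAM.{u}
  have hT2 := tT2.{u}
  have hNB := tNB.{u}
  have hKERC := tKERC.{u}
  have hAVOID := tAVOID.{u}
  have hNBGEN := tNBGEN.{u}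
  have hDVG := tDVG.{u}
  have hDENSE := tDENSE.{u}
  have hACT := tACT.{u}
  have hACTC := tACTC.{u}
  have hFUNC := tFUNC.{u}
  have hITER := tITER.{u}
  have hFIBC := tFIBC.{u}
  have hNPOL := tNPOL.{u}
  have hGEN := tGEN.{u}
  have hNWI := tNWI.{u}
  have hNWROOT := tNWROOT.{u}
  have hSUMDIR := tSUMDIR.{u}
  have hCENTER := tCENTER.{u}
  have hS2 := tS2.{u}
  have hS1 := tS1.{u}
  have hCOMB := tCOMB.{u}
  have hC := tC.{u}
  have hLC := tLC.{u}
  have hNC := tNC.{u}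
  have hLDU := tLDU.{u}
  have hLDEX := tLDEX.{u}
  have hCHAIN := tCHAIN.{u}
  have hT1 := tT1.{u}
  have hTYPE2 := tTYPE2.{u}
  have hINVX := tINVX.{u}
  have hGREEN := tGREEN.{u}
  have hPATH0 := tPATH0.{u}
  have hPATHI := tPATHI.{u}
  have hKGP := tKGP.{u}
  have hSUMN := tSUMN.{u}
  have hSUMK := tSUMK.{u}
  have hKER := tKER.{u}
  have hINVM := tINVM.{u}
  have hMIXK := tMIXK.{u}
  have hGOOD := tGOOD.{u}
  first | exact Pool.Agent.W293.BK.tl | (apply Pool.Agent.W293.BK.tl <;> assumption)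

theorem tREP : S_REP.{u} := by
  have hEV := tEV.{u}
  have hVAL := tVAL.{u}
  have hISO := tISO.{u}
  have hGLAM := tGLAM.{u}
  have hT2 := tT2.{u}
  have hNB := tNB.{u}
  have hKERC := tKERC.{u}
  have hAVOID := tAVOID.{u}
  have hNBGEN := tNBGEN.{u}
  have hDVG := tDVG.{u}
  have hDENSE := tDENSE.{u}
  have hACT := tACT.{u}
  have hACTC := tACTC.{u}
  have hFUNC := tFUNC.{u}
  have hITER := tITER.{u}
  have hFIBC := tFIBC.{u}
  have hNPOL := tNPOL.{u}
  have hGEN := tGEN.{u}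
  have hNWI := tNWI.{u}
  have hNWROOT := tNWROOT.{u}
  have hSUMDIR := tSUMDIR.{u}
  have hCENTER := tCENTER.{u}
  have hS2 := tS2.{u}
  have hS1 := tS1.{u}
  have hCOMB := tCOMB.{u}
  have hC := tC.{u}
  have hLC := tLC.{u}
  have hNC := tNC.{u}
  have hLDU := tLDU.{u}
  have hLDEX := tLDEX.{u}
  have hCHAIN := tCHAIN.{u}
  have hT1 := tT1.{u}
  have hTYPE2 := tTYPE2.{u}
  have hINVX := tINVX.{u}
  have hGREEN := tGREEN.{u}
  have hPATH0 := tPATH0.{u}
  have hPATHI := tPATHI.{u}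
  have hKGP := tKGP.{u}
  have hSUMN := tSUMN.{u}
  have hSUMK := tSUMK.{u}
  have hKER := tKER.{u}
  have hINVM := tINVM.{u}
  have hMIXK := tMIXK.{u}
  have hGOOD := tGOOD.{u}
  have hTL := tTL.{u}
  first | exact Pool.Agent.W800.BK.Rep.main | (apply Pool.Agent.W800.BK.Rep.main <;> assumption)

theorem tATOM : S_ATOM.{u} := by
  have hEV := tEV.{u}
  have hVAL := tVAL.{u}
  have hISO := tISO.{u}
  have hGLAM := tGLAM.{u}
  have hT2 := tT2.{u}
  have hNB := tNB.{u}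
  have hKERC := tKERC.{u}
  have hAVOID := tAVOID.{u}
  have hNBGEN := tNBGEN.{u}
  have hDVG := tDVG.{u}
  have hDENSE := tDENSE.{u}
  have hACT := tACT.{u}
  have hACTC := tACTC.{u}
  have hFUNC := tFUNC.{u}
  have hITER := tITER.{u}
  have hFIBC := tFIBC.{u}
  have hNPOL := tNPOL.{u}
  have hGEN := tGEN.{u}
  have hNWI := tNWI.{u}
  have hNWROOT := tNWROOT.{u}
  have hSUMDIR := tSUMDIR.{u}
  have hCENTER := tCENTER.{u}
  have hS2 := tS2.{u}
  have hS1 := tS1.{u}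
  have hCOMB := tCOMB.{u}
  have hC := tC.{u}
  have hLC := tLC.{u}
  have hNC := tNC.{u}
  have hLDU := tLDU.{u}
  have hLDEX := tLDEX.{u}
  have hCHAIN := tCHAIN.{u}
  have hT1 := tT1.{u}
  have hTYPE2 := tTYPE2.{u}
  have hINVX := tINVX.{u}
  have hGREEN := tGREEN.{u}
  have hPATH0 := tPATH0.{u}
  have hPATHI := tPATHI.{u}
  have hKGP := tKGP.{u}
  have hSUMN := tSUMN.{u}
  have hSUMK := tSUMK.{u}
  have hKER := tKER.{u}
  have hINVM := tINVM.{u}
  have hMIXK := tMIXK.{u}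
  have hGOOD := tGOOD.{u}
  have hTL := tTL.{u}
  have hREP := tREP.{u}
  first | exact Pool.Agent.W800.BK.Atom.main | (apply Pool.Agent.W800.BK.Atom.main <;> assumption)

theorem tNOAT : S_NOAT.{u} := by
  have hEV := tEV.{u}
  have hVAL := tVAL.{u}
  have hISO := tISO.{u}
  have hGLAM := tGLAM.{u}
  have hT2 := tT2.{u}
  have hNB := tNB.{u}
  have hKERC := tKERC.{u}
  have hAVOID := tAVOID.{u}
  have hNBGEN := tNBGEN.{u}
  have hDVG := tDVG.{u}
  have hDENSE := tDENSE.{u}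
  have hACT := tACT.{u}
  have hACTC := tACTC.{u}
  have hFUNC := tFUNC.{u}
  have hITER := tITER.{u}
  have hFIBC := tFIBC.{u}
  have hNPOL := tNPOL.{u}
  have hGEN := tGEN.{u}
  have hNWI := tNWI.{u}
  have hNWROOT := tNWROOT.{u}
  have hSUMDIR := tSUMDIR.{u}
  have hCENTER := tCENTER.{u}
  have hS2 := tS2.{u}
  have hS1 := tS1.{u}
  have hCOMB := tCOMB.{u}
  have hC := tC.{u}
  have hLC := tLC.{u}
  have hNC := tNC.{u}
  have hLDU := tLDU.{u}
  have hLDEX := tLDEX.{u}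
  have hCHAIN := tCHAIN.{u}
  have hT1 := tT1.{u}
  have hTYPE2 := tTYPE2.{u}
  have hINVX := tINVX.{u}
  have hGREEN := tGREEN.{u}
  have hPATH0 := tPATH0.{u}
  have hPATHI := tPATHI.{u}
  have hKGP := tKGP.{u}
  have hSUMN := tSUMN.{u}
  have hSUMK := tSUMK.{u}
  have hKER := tKER.{u}
  have hINVM := tINVM.{u}
  have hMIXK := tMIXK.{u}
  have hGOOD := tGOOD.{u}
  have hTL := tTL.{u}
  have hREP := tREP.{u}
  have hATOM := tATOM.{u}
  first | exact Pool.Agent.W298.BK.Noat.noat | (apply Pool.Agent.W298.BK.Noat.noat <;> assumption)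

theorem tNWLIM : S_NWLIM.{u} := by
  have hEV := tEV.{u}
  have hVAL := tVAL.{u}
  have hISO := tISO.{u}
  have hGLAM := tGLAM.{u}
  have hT2 := tT2.{u}
  have hNB := tNB.{u}
  have hKERC := tKERC.{u}
  have hAVOID := tAVOID.{u}
  have hNBGEN := tNBGEN.{u}
  have hDVG := tDVG.{u}
  have hDENSE := tDENSE.{u}
  have hACT := tACT.{u}
  have hACTC := tACTC.{u}
  have hFUNC := tFUNC.{u}
  have hITER := tITER.{u}
  have hFIBC := tFIBC.{u}
  have hNPOL := tNPOL.{u}
  have hGEN := tGEN.{u}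
  have hNWI := tNWI.{u}
  have hNWROOT := tNWROOT.{u}
  have hSUMDIR := tSUMDIR.{u}
  have hCENTER := tCENTER.{u}
  have hS2 := tS2.{u}
  have hS1 := tS1.{u}
  have hCOMB := tCOMB.{u}
  have hC := tC.{u}
  have hLC := tLC.{u}
  have hNC := tNC.{u}
  have hLDU := tLDU.{u}
  have hLDEX := tLDEX.{u}
  have hCHAIN := tCHAIN.{u}
  have hT1 := tT1.{u}
  have hTYPE2 := tTYPE2.{u}
  have hINVX := tINVX.{u}
  have hGREEN := tGREEN.{u}
  have hPATH0 := tPATH0.{u}
  have hPATHI := tPATHI.{u}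
  have hKGP := tKGP.{u}
  have hSUMN := tSUMN.{u}
  have hSUMK := tSUMK.{u}
  have hKER := tKER.{u}
  have hINVM := tINVM.{u}
  have hMIXK := tMIXK.{u}
  have hGOOD := tGOOD.{u}
  have hTL := tTL.{u}
  have hREP := tREP.{u}
  have hATOM := tATOM.{u}
  have hNOAT := tNOAT.{u}
  first | exact Pool.Agent.W293.BK.nwlim | (apply Pool.Agent.W293.BK.nwlim <;> assumption)

theorem tUB : S_UB.{u} := by
  have hEV := tEV.{u}
  have hVAL := tVAL.{u}
  have hISO := tISO.{u}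
  have hGLAM := tGLAM.{u}
  have hT2 := tT2.{u}
  have hNB := tNB.{u}
  have hKERC := tKERC.{u}
  have hAVOID := tAVOID.{u}
  have hNBGEN := tNBGEN.{u}
  have hDVG := tDVG.{u}
  have hDENSE := tDENSE.{u}
  have hACT := tACT.{u}
  have hACTC := tACTC.{u}
  have hFUNC := tFUNC.{u}
  have hITER := tITER.{u}
  have hFIBC := tFIBC.{u}
  have hNPOL := tNPOL.{u}
  have hGEN := tGEN.{u}
  have hNWI := tNWI.{u}
  have hNWROOT := tNWROOT.{u}
  have hSUMDIR := tSUMDIR.{u}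
  have hCENTER := tCENTER.{u}
  have hS2 := tS2.{u}
  have hS1 := tS1.{u}
  have hCOMB := tCOMB.{u}
  have hC := tC.{u}
  have hLC := tLC.{u}
  have hNC := tNC.{u}
  have hLDU := tLDU.{u}
  have hLDEX := tLDEX.{u}
  have hCHAIN := tCHAIN.{u}
  have hT1 := tT1.{u}
  have hTYPE2 := tTYPE2.{u}
  have hINVX := tINVX.{u}
  have hGREEN := tGREEN.{u}
  have hPATH0 := tPATH0.{u}
  have hPATHI := tPATHI.{u}
  have hKGP := tKGP.{u}
  have hSUMN := tSUMN.{u}
  have hSUMK := tSUMK.{u}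
  have hKER := tKER.{u}
  have hINVM := tINVM.{u}
  have hMIXK := tMIXK.{u}
  have hGOOD := tGOOD.{u}
  have hTL := tTL.{u}
  have hREP := tREP.{u}
  have hATOM := tATOM.{u}
  have hNOAT := tNOAT.{u}
  have hNWLIM := tNWLIM.{u}
  first | exact Pool.Agent.W293.BK.ub | (apply Pool.Agent.W293.BK.ub <;> assumption)

theorem tMIXB : S_MIXB.{u} := by
  have hEV := tEV.{u}
  have hVAL := tVAL.{u}
  have hISO := tISO.{u}
  have hGLAM := tGLAM.{u}
  have hT2 := tT2.{u}
  have hNB := tNB.{u}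
  have hKERC := tKERC.{u}
  have hAVOID := tAVOID.{u}
  have hNBGEN := tNBGEN.{u}
  have hDVG := tDVG.{u}
  have hDENSE := tDENSE.{u}
  have hACT := tACT.{u}
  have hACTC := tACTC.{u}
  have hFUNC := tFUNC.{u}
  have hITER := tITER.{u}
  have hFIBC := tFIBC.{u}
  have hNPOL := tNPOL.{u}
  have hGEN := tGEN.{u}
  have hNWI := tNWI.{u}
  have hNWROOT := tNWROOT.{u}
  have hSUMDIR := tSUMDIR.{u}
  have hCENTER := tCENTER.{u}
  have hS2 := tS2.{u}
  have hS1 := tS1.{u}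
  have hCOMB := tCOMB.{u}
  have hC := tC.{u}
  have hLC := tLC.{u}
  have hNC := tNC.{u}
  have hLDU := tLDU.{u}
  have hLDEX := tLDEX.{u}
  have hCHAIN := tCHAIN.{u}
  have hT1 := tT1.{u}
  have hTYPE2 := tTYPE2.{u}
  have hINVX := tINVX.{u}
  have hGREEN := tGREEN.{u}
  have hPATH0 := tPATH0.{u}
  have hPATHI := tPATHI.{u}
  have hKGP := tKGP.{u}
  have hSUMN := tSUMN.{u}
  have hSUMK := tSUMK.{u}
  have hKER := tKER.{u}
  have hINVM := tINVM.{u}
  have hMIXK := tMIXK.{u}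
  have hGOOD := tGOOD.{u}
  have hTL := tTL.{u}
  have hREP := tREP.{u}
  have hATOM := tATOM.{u}
  have hNOAT := tNOAT.{u}
  have hNWLIM := tNWLIM.{u}
  have hUB := tUB.{u}
  first | exact Pool.Agent.W918.BKM.mixb | (apply Pool.Agent.W918.BKM.mixb <;> assumption)

theorem tMIXC : S_MIXC.{u} := by
  have hEV := tEV.{u}
  have hVAL := tVAL.{u}
  have hISO := tISO.{u}
  have hGLAM := tGLAM.{u}
  have hT2 := tT2.{u}
  have hNB := tNB.{u}
  have hKERC := tKERC.{u}
  have hAVOID := tAVOID.{u}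
  have hNBGEN := tNBGEN.{u}
  have hDVG := tDVG.{u}
  have hDENSE := tDENSE.{u}
  have hACT := tACT.{u}
  have hACTC := tACTC.{u}
  have hFUNC := tFUNC.{u}
  have hITER := tITER.{u}
  have hFIBC := tFIBC.{u}
  have hNPOL := tNPOL.{u}
  have hGEN := tGEN.{u}
  have hNWI := tNWI.{u}
  have hNWROOT := tNWROOT.{u}
  have hSUMDIR := tSUMDIR.{u}
  have hCENTER := tCENTER.{u}
  have hS2 := tS2.{u}
  have hS1 := tS1.{u}
  have hCOMB := tCOMB.{u}
  have hC := tC.{u}
  have hLC := tLC.{u}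
  have hNC := tNC.{u}
  have hLDU := tLDU.{u}
  have hLDEX := tLDEX.{u}
  have hCHAIN := tCHAIN.{u}
  have hT1 := tT1.{u}
  have hTYPE2 := tTYPE2.{u}
  have hINVX := tINVX.{u}
  have hGREEN := tGREEN.{u}
  have hPATH0 := tPATH0.{u}
  have hPATHI := tPATHI.{u}
  have hKGP := tKGP.{u}
  have hSUMN := tSUMN.{u}
  have hSUMK := tSUMK.{u}
  have hKER := tKER.{u}
  have hINVM := tINVM.{u}
  have hMIXK := tMIXK.{u}
  have hGOOD := tGOOD.{u}
  have hTL := tTL.{u}
  have hREP := tREP.{u}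
  have hATOM := tATOM.{u}
  have hNOAT := tNOAT.{u}
  have hNWLIM := tNWLIM.{u}
  have hUB := tUB.{u}
  have hMIXB := tMIXB.{u}
  first | exact Pool.Agent.W918.BKM.mixc | (apply Pool.Agent.W918.BKM.mixc <;> assumption)

theorem tMIX : S_MIX.{u} := by
  have hEV := tEV.{u}
  have hVAL := tVAL.{u}
  have hISO := tISO.{u}
  have hGLAM := tGLAM.{u}
  have hT2 := tT2.{u}
  have hNB := tNB.{u}
  have hKERC := tKERC.{u}
  have hAVOID := tAVOID.{u}
  have hNBGEN := tNBGEN.{u}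
  have hDVG := tDVG.{u}
  have hDENSE := tDENSE.{u}
  have hACT := tACT.{u}
  have hACTC := tACTC.{u}
  have hFUNC := tFUNC.{u}
  have hITER := tITER.{u}
  have hFIBC := tFIBC.{u}
  have hNPOL := tNPOL.{u}
  have hGEN := tGEN.{u}
  have hNWI := tNWI.{u}
  have hNWROOT := tNWROOT.{u}
  have hSUMDIR := tSUMDIR.{u}
  have hCENTER := tCENTER.{u}
  have hS2 := tS2.{u}
  have hS1 := tS1.{u}
  have hCOMB := tCOMB.{u}
  have hC := tC.{u}
  have hLC := tLC.{u}
  have hNC := tNC.{u}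
  have hLDU := tLDU.{u}
  have hLDEX := tLDEX.{u}
  have hCHAIN := tCHAIN.{u}
  have hT1 := tT1.{u}
  have hTYPE2 := tTYPE2.{u}
  have hINVX := tINVX.{u}
  have hGREEN := tGREEN.{u}
  have hPATH0 := tPATH0.{u}
  have hPATHI := tPATHI.{u}
  have hKGP := tKGP.{u}
  have hSUMN := tSUMN.{u}
  have hSUMK := tSUMK.{u}
  have hKER := tKER.{u}
  have hINVM := tINVM.{u}
  have hMIXK := tMIXK.{u}
  have hGOOD := tGOOD.{u}
  have hTL := tTL.{u}
  have hREP := tREP.{u}
  have hATOM := tATOM.{u}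
  have hNOAT := tNOAT.{u}
  have hNWLIM := tNWLIM.{u}
  have hUB := tUB.{u}
  have hMIXB := tMIXB.{u}
  have hMIXC := tMIXC.{u}
  first | exact Pool.Agent.W782.BKM.main | (apply Pool.Agent.W782.BKM.main <;> assumption)

theorem tONE : S_ONE.{u} := by
  have hEV := tEV.{u}
  have hVAL := tVAL.{u}
  have hISO := tISO.{u}
  have hGLAM := tGLAM.{u}
  have hT2 := tT2.{u}
  have hNB := tNB.{u}
  have hKERC := tKERC.{u}
  have hAVOID := tAVOID.{u}
  have hNBGEN := tNBGEN.{u}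
  have hDVG := tDVG.{u}
  have hDENSE := tDENSE.{u}
  have hACT := tACT.{u}
  have hACTC := tACTC.{u}
  have hFUNC := tFUNC.{u}
  have hITER := tITER.{u}
  have hFIBC := tFIBC.{u}
  have hNPOL := tNPOL.{u}
  have hGEN := tGEN.{u}
  have hNWI := tNWI.{u}
  have hNWROOT := tNWROOT.{u}
  have hSUMDIR := tSUMDIR.{u}
  have hCENTER := tCENTER.{u}
  have hS2 := tS2.{u}
  have hS1 := tS1.{u}
  have hCOMB := tCOMB.{u}
  have hC := tC.{u}
  have hLC := tLC.{u}
  have hNC := tNC.{u}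
  have hLDU := tLDU.{u}
  have hLDEX := tLDEX.{u}
  have hCHAIN := tCHAIN.{u}
  have hT1 := tT1.{u}
  have hTYPE2 := tTYPE2.{u}
  have hINVX := tINVX.{u}
  have hGREEN := tGREEN.{u}
  have hPATH0 := tPATH0.{u}
  have hPATHI := tPATHI.{u}
  have hKGP := tKGP.{u}
  have hSUMN := tSUMN.{u}
  have hSUMK := tSUMK.{u}
  have hKER := tKER.{u}
  have hINVM := tINVM.{u}
  have hMIXK := tMIXK.{u}
  have hGOOD := tGOOD.{u}
  have hTL := tTL.{u}
  have hREP := tREP.{u}
  have hATOM := tATOM.{u}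
  have hNOAT := tNOAT.{u}
  have hNWLIM := tNWLIM.{u}
  have hUB := tUB.{u}
  have hMIXB := tMIXB.{u}
  have hMIXC := tMIXC.{u}
  have hMIX := tMIX.{u}
  first | exact Pool.Agent.W655.BK.main | (apply Pool.Agent.W655.BK.main <;> assumption)

theorem tPRZ : S_PRZ.{u} := by
  have hEV := tEV.{u}
  have hVAL := tVAL.{u}
  have hISO := tISO.{u}
  have hGLAM := tGLAM.{u}
  have hT2 := tT2.{u}
  have hNB := tNB.{u}
  have hKERC := tKERC.{u}
  have hAVOID := tAVOID.{u}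
  have hNBGEN := tNBGEN.{u}
  have hDVG := tDVG.{u}
  have hDENSE := tDENSE.{u}
  have hACT := tACT.{u}
  have hACTC := tACTC.{u}
  have hFUNC := tFUNC.{u}
  have hITER := tITER.{u}
  have hFIBC := tFIBC.{u}
  have hNPOL := tNPOL.{u}
  have hGEN := tGEN.{u}
  have hNWI := tNWI.{u}
  have hNWROOT := tNWROOT.{u}
  have hSUMDIR := tSUMDIR.{u}
  have hCENTER := tCENTER.{u}
  have hS2 := tS2.{u}
  have hS1 := tS1.{u}
  have hCOMB := tCOMB.{u}
  have hC := tC.{u}
  have hLC := tLC.{u}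
  have hNC := tNC.{u}
  have hLDU := tLDU.{u}
  have hLDEX := tLDEX.{u}
  have hCHAIN := tCHAIN.{u}
  have hT1 := tT1.{u}
  have hTYPE2 := tTYPE2.{u}
  have hINVX := tINVX.{u}
  have hGREEN := tGREEN.{u}
  have hPATH0 := tPATH0.{u}
  have hPATHI := tPATHI.{u}
  have hKGP := tKGP.{u}
  have hSUMN := tSUMN.{u}
  have hSUMK := tSUMK.{u}
  have hKER := tKER.{u}
  have hINVM := tINVM.{u}
  have hMIXK := tMIXK.{u}
  have hGOOD := tGOOD.{u}
  have hTL := tTL.{u}
  have hREP := tREP.{u}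
  have hATOM := tATOM.{u}
  have hNOAT := tNOAT.{u}
  have hNWLIM := tNWLIM.{u}
  have hUB := tUB.{u}
  have hMIXB := tMIXB.{u}
  have hMIXC := tMIXC.{u}
  have hMIX := tMIX.{u}
  have hONE := tONE.{u}
  first | exact Pool.Agent.W298.BK.Prz.main | (apply Pool.Agent.W298.BK.Prz.main <;> assumption)

theorem tUIC : S_UIC.{u} := by
  have hEV := tEV.{u}
  have hVAL := tVAL.{u}
  have hISO := tISO.{u}
  have hGLAM := tGLAM.{u}
  have hT2 := tT2.{u}
  have hNB := tNB.{u}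
  have hKERC := tKERC.{u}
  have hAVOID := tAVOID.{u}
  have hNBGEN := tNBGEN.{u}
  have hDVG := tDVG.{u}
  have hDENSE := tDENSE.{u}
  have hACT := tACT.{u}
  have hACTC := tACTC.{u}
  have hFUNC := tFUNC.{u}
  have hITER := tITER.{u}
  have hFIBC := tFIBC.{u}
  have hNPOL := tNPOL.{u}
  have hGEN := tGEN.{u}
  have hNWI := tNWI.{u}
  have hNWROOT := tNWROOT.{u}
  have hSUMDIR := tSUMDIR.{u}
  have hCENTER := tCENTER.{u}
  have hS2 := tS2.{u}
  have hS1 := tS1.{u}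
  have hCOMB := tCOMB.{u}
  have hC := tC.{u}
  have hLC := tLC.{u}
  have hNC := tNC.{u}
  have hLDU := tLDU.{u}
  have hLDEX := tLDEX.{u}
  have hCHAIN := tCHAIN.{u}
  have hT1 := tT1.{u}
  have hTYPE2 := tTYPE2.{u}
  have hINVX := tINVX.{u}
  have hGREEN := tGREEN.{u}
  have hPATH0 := tPATH0.{u}
  have hPATHI := tPATHI.{u}
  have hKGP := tKGP.{u}
  have hSUMN := tSUMN.{u}
  have hSUMK := tSUMK.{u}
  have hKER := tKER.{u}
  have hINVM := tINVM.{u}
  have hMIXK := tMIXK.{u}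
  have hGOOD := tGOOD.{u}
  have hTL := tTL.{u}
  have hREP := tREP.{u}
  have hATOM := tATOM.{u}
  have hNOAT := tNOAT.{u}
  have hNWLIM := tNWLIM.{u}
  have hUB := tUB.{u}
  have hMIXB := tMIXB.{u}
  have hMIXC := tMIXC.{u}
  have hMIX := tMIX.{u}
  have hONE := tONE.{u}
  have hPRZ := tPRZ.{u}
  first | exact Pool.Agent.W15.BK.uic | (apply Pool.Agent.W15.BK.uic <;> assumption)

theorem tUII : S_UII.{u} := by
  have hEV := tEV.{u}
  have hVAL := tVAL.{u}
  have hISO := tISO.{u}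
  have hGLAM := tGLAM.{u}
  have hT2 := tT2.{u}
  have hNB := tNB.{u}
  have hKERC := tKERC.{u}
  have hAVOID := tAVOID.{u}
  have hNBGEN := tNBGEN.{u}
  have hDVG := tDVG.{u}
  have hDENSE := tDENSE.{u}
  have hACT := tACT.{u}
  have hACTC := tACTC.{u}
  have hFUNC := tFUNC.{u}
  have hITER := tITER.{u}
  have hFIBC := tFIBC.{u}
  have hNPOL := tNPOL.{u}
  have hGEN := tGEN.{u}
  have hNWI := tNWI.{u}
  have hNWROOT := tNWROOT.{u}
  have hSUMDIR := tSUMDIR.{u}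
  have hCENTER := tCENTER.{u}
  have hS2 := tS2.{u}
  have hS1 := tS1.{u}
  have hCOMB := tCOMB.{u}
  have hC := tC.{u}
  have hLC := tLC.{u}
  have hNC := tNC.{u}
  have hLDU := tLDU.{u}
  have hLDEX := tLDEX.{u}
  have hCHAIN := tCHAIN.{u}
  have hT1 := tT1.{u}
  have hTYPE2 := tTYPE2.{u}
  have hINVX := tINVX.{u}
  have hGREEN := tGREEN.{u}
  have hPATH0 := tPATH0.{u}
  have hPATHI := tPATHI.{u}
  have hKGP := tKGP.{u}
  have hSUMN := tSUMN.{u}
  have hSUMK := tSUMK.{u}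
  have hKER := tKER.{u}
  have hINVM := tINVM.{u}
  have hMIXK := tMIXK.{u}
  have hGOOD := tGOOD.{u}
  have hTL := tTL.{u}
  have hREP := tREP.{u}
  have hATOM := tATOM.{u}
  have hNOAT := tNOAT.{u}
  have hNWLIM := tNWLIM.{u}
  have hUB := tUB.{u}
  have hMIXB := tMIXB.{u}
  have hMIXC := tMIXC.{u}
  have hMIX := tMIX.{u}
  have hONE := tONE.{u}
  have hPRZ := tPRZ.{u}
  have hUIC := tUIC.{u}
  first | exact Pool.Agent.W15.BK.uii | (apply Pool.Agent.W15.BK.uii <;> assumption)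

theorem tUI : S_UI.{u} := by
  have hEV := tEV.{u}
  have hVAL := tVAL.{u}
  have hISO := tISO.{u}
  have hGLAM := tGLAM.{u}
  have hT2 := tT2.{u}
  have hNB := tNB.{u}
  have hKERC := tKERC.{u}
  have hAVOID := tAVOID.{u}
  have hNBGEN := tNBGEN.{u}
  have hDVG := tDVG.{u}
  have hDENSE := tDENSE.{u}
  have hACT := tACT.{u}
  have hACTC := tACTC.{u}
  have hFUNC := tFUNC.{u}
  have hITER := tITER.{u}
  have hFIBC := tFIBC.{u}
  have hNPOL := tNPOL.{u}
  have hGEN := tGEN.{u}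
  have hNWI := tNWI.{u}
  have hNWROOT := tNWROOT.{u}
  have hSUMDIR := tSUMDIR.{u}
  have hCENTER := tCENTER.{u}
  have hS2 := tS2.{u}
  have hS1 := tS1.{u}
  have hCOMB := tCOMB.{u}
  have hC := tC.{u}
  have hLC := tLC.{u}
  have hNC := tNC.{u}
  have hLDU := tLDU.{u}
  have hLDEX := tLDEX.{u}
  have hCHAIN := tCHAIN.{u}
  have hT1 := tT1.{u}
  have hTYPE2 := tTYPE2.{u}
  have hINVX := tINVX.{u}
  have hGREEN := tGREEN.{u}
  have hPATH0 := tPATH0.{u}
  have hPATHI := tPATHI.{u}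
  have hKGP := tKGP.{u}
  have hSUMN := tSUMN.{u}
  have hSUMK := tSUMK.{u}
  have hKER := tKER.{u}
  have hINVM := tINVM.{u}
  have hMIXK := tMIXK.{u}
  have hGOOD := tGOOD.{u}
  have hTL := tTL.{u}
  have hREP := tREP.{u}
  have hATOM := tATOM.{u}
  have hNOAT := tNOAT.{u}
  have hNWLIM := tNWLIM.{u}
  have hUB := tUB.{u}
  have hMIXB := tMIXB.{u}
  have hMIXC := tMIXC.{u}
  have hMIX := tMIX.{u}
  have hONE := tONE.{u}
  have hPRZ := tPRZ.{u}
  have hUIC := tUIC.{u}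
  have hUII := tUII.{u}
  first | exact Pool.Agent.W382.BK.UI.main | (apply Pool.Agent.W382.BK.UI.main <;> assumption)

theorem tSPHC : S_SPHC.{u} := by
  have hEV := tEV.{u}
  have hVAL := tVAL.{u}
  have hISO := tISO.{u}
  have hGLAM := tGLAM.{u}
  have hT2 := tT2.{u}
  have hNB := tNB.{u}
  have hKERC := tKERC.{u}
  have hAVOID := tAVOID.{u}
  have hNBGEN := tNBGEN.{u}
  have hDVG := tDVG.{u}
  have hDENSE := tDENSE.{u}
  have hACT := tACT.{u}
  have hACTC := tACTC.{u}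
  have hFUNC := tFUNC.{u}
  have hITER := tITER.{u}
  have hFIBC := tFIBC.{u}
  have hNPOL := tNPOL.{u}
  have hGEN := tGEN.{u}
  have hNWI := tNWI.{u}
  have hNWROOT := tNWROOT.{u}
  have hSUMDIR := tSUMDIR.{u}
  have hCENTER := tCENTER.{u}
  have hS2 := tS2.{u}
  have hS1 := tS1.{u}
  have hCOMB := tCOMB.{u}
  have hC := tC.{u}
  have hLC := tLC.{u}
  have hNC := tNC.{u}
  have hLDU := tLDU.{u}
  have hLDEX := tLDEX.{u}
  have hCHAIN := tCHAIN.{u}
  have hT1 := tT1.{u}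
  have hTYPE2 := tTYPE2.{u}
  have hINVX := tINVX.{u}
  have hGREEN := tGREEN.{u}
  have hPATH0 := tPATH0.{u}
  have hPATHI := tPATHI.{u}
  have hKGP := tKGP.{u}
  have hSUMN := tSUMN.{u}
  have hSUMK := tSUMK.{u}
  have hKER := tKER.{u}
  have hINVM := tINVM.{u}
  have hMIXK := tMIXK.{u}
  have hGOOD := tGOOD.{u}
  have hTL := tTL.{u}
  have hREP := tREP.{u}
  have hATOM := tATOM.{u}
  have hNOAT := tNOAT.{u}
  have hNWLIM := tNWLIM.{u}
  have hUB := tUB.{u}
  have hMIXB := tMIXB.{u}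
  have hMIXC := tMIXC.{u}
  have hMIX := tMIX.{u}
  have hONE := tONE.{u}
  have hPRZ := tPRZ.{u}
  have hUIC := tUIC.{u}
  have hUII := tUII.{u}
  have hUI := tUI.{u}
  first | exact Pool.Agent.W605.BK.SPHC.main | (apply Pool.Agent.W605.BK.SPHC.main <;> assumption)

theorem tMAIN : S_MAIN.{u} := by
  have hEV := tEV.{u}
  have hVAL := tVAL.{u}
  have hISO := tISO.{u}
  have hGLAM := tGLAM.{u}
  have hT2 := tT2.{u}
  have hNB := tNB.{u}
  have hKERC := tKERC.{u}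
  have hAVOID := tAVOID.{u}
  have hNBGEN := tNBGEN.{u}
  have hDVG := tDVG.{u}
  have hDENSE := tDENSE.{u}
  have hACT := tACT.{u}
  have hACTC := tACTC.{u}
  have hFUNC := tFUNC.{u}
  have hITER := tITER.{u}
  have hFIBC := tFIBC.{u}
  have hNPOL := tNPOL.{u}
  have hGEN := tGEN.{u}
  have hNWI := tNWI.{u}
  have hNWROOT := tNWROOT.{u}
  have hSUMDIR := tSUMDIR.{u}
  have hCENTER := tCENTER.{u}
  have hS2 := tS2.{u}
  have hS1 := tS1.{u}
  have hCOMB := tCOMB.{u}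
  have hC := tC.{u}
  have hLC := tLC.{u}
  have hNC := tNC.{u}
  have hLDU := tLDU.{u}
  have hLDEX := tLDEX.{u}
  have hCHAIN := tCHAIN.{u}
  have hT1 := tT1.{u}
  have hTYPE2 := tTYPE2.{u}
  have hINVX := tINVX.{u}
  have hGREEN := tGREEN.{u}
  have hPATH0 := tPATH0.{u}
  have hPATHI := tPATHI.{u}
  have hKGP := tKGP.{u}
  have hSUMN := tSUMN.{u}
  have hSUMK := tSUMK.{u}
  have hKER := tKER.{u}
  have hINVM := tINVM.{u}
  have hMIXK := tMIXK.{u}
  have hGOOD := tGOOD.{u}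
  have hTL := tTL.{u}
  have hREP := tREP.{u}
  have hATOM := tATOM.{u}
  have hNOAT := tNOAT.{u}
  have hNWLIM := tNWLIM.{u}
  have hUB := tUB.{u}
  have hMIXB := tMIXB.{u}
  have hMIXC := tMIXC.{u}
  have hMIX := tMIX.{u}
  have hONE := tONE.{u}
  have hPRZ := tPRZ.{u}
  have hUIC := tUIC.{u}
  have hUII := tUII.{u}
  have hUI := tUI.{u}
  have hSPHC := tSPHC.{u}
  first | exact W310.BK.Main.main | (apply W310.BK.Main.main <;> assumption)

end Pool.Agent.W95.BK.Lib
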